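import Pool.Agent.W845.TR.Defs

set_option autoImplicit false
open scoped BigOperators
open MeasureTheory

/-!
Project TR (MP_985e29_pr): exact statements of the parts.
-/

namespace Pool.Agent.W845.TR

/-! ## The game -/

/-- Strategies and finite wins. -/
def St_STRAT : Prop := ∀ (d : ℕ) (O : Set (S d)) (v : S d),
  (FirstWins O v ↔ v ∉ O ∨ ∃ n, W O n v {v}) ∧
  (SecondWins O v ↔ v ∈ O ∧ ∃ n, ∀ y, Legal O v {v} y → W O n y {y, v})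

/-- Matching of the complement of a maximum independent set into it. -/
def St_HALL : Prop := ∀ (d : ℕ) (H I : Finset (S d)), MaxInd H I →
  ∃ M : S d → S d, (∀ x ∈ H \ I, M x ∈ I ∧ adj x (M x)) ∧ Set.InjOn M ((H \ I : Finset (S d)) : Set (S d))

/-- Winning criteria on a finite board. -/
def St_MAT : Prop := ∀ (d : ℕ) (H : Finset (S d)) (x : S d), x ∈ H →
  ((∃ I, MaxInd H I ∧ x ∉ I) → W (H : Set (S d)) H.card x {x}) ∧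
  ((∀ I, MaxInd H I → x ∈ I) →
    ∀ y, Legal (H : Set (S d)) x {x} y → W (H : Set (S d)) H.card y {y, x})

def St_G1 : Prop := ∀ (d : ℕ) (Lam : Finset (S d)) (O : Set (S d)) (x : S d), x ∈ Lam → x ∈ O →
  (∃ I, MaxInd (bd Lam (par x) O) I ∧ x ∉ I) → W O Lam.card x {x}

def St_G2 : Prop := ∀ (d : ℕ) (Lam : Finset (S d)) (O : Set (S d)) (x : S d), x ∈ Lam →
  nb x ⊆ Lam → x ∈ O → (∀ I, MaxInd (bd Lam (!par x) O) I → x ∈ I) →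
  ∀ y, Legal O x {x} y → W O Lam.card y {y, x}

def St_GD1 : Prop := ∀ (d : ℕ) (Lam : Finset (S d)) (O : Set (S d)) (x : S d) (n : ℕ),
  (∀ y, l1 x y ≤ 2 * n + 1 → y ∈ Lam) → x ∈ O → W O n x {x} →
  ∃ I, MaxInd (bd Lam (par x) O) I ∧ x ∉ I

def St_GD2 : Prop := ∀ (d : ℕ) (Lam : Finset (S d)) (O : Set (S d)) (x : S d) (n : ℕ),
  (∀ y, l1 x y ≤ 2 * n + 2 → y ∈ Lam) → x ∈ O → (∀ y, Legal O x {x} y → W O n y {y, x}) →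
  ∀ I, MaxInd (bd Lam (!par x) O) I → x ∈ I

/-! ## Dimensions one and two -/

def St_AW1 : Prop := ∀ (d : ℕ) (Lam A : Finset (S d)) (x : S d), x ∈ Lam → nb x ⊆ Lam →
  0 ≤ sg x * (FF Lam (A.erase x) - FF Lam (insert x A)) ∧
  sg x * (FF Lam (A.erase x) - FF Lam (insert x A)) ≤ 1 ∧
  (Und Lam.card x A → sg x * (FF Lam (A.erase x) - FF Lam (insert x A)) = 1) ∧
  (∀ r : ℕ, (∀ y, l1 x y ≤ 2 * r + 2 → y ∈ Lam) → ¬ Und r x A →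
    sg x * (FF Lam (A.erase x) - FF Lam (insert x A)) = 0)

def St_AW2 : Prop := ∀ (d L N : ℕ) (A A' : Finset (S d)), L + 1 ≤ N →
  (∀ x, x ∉ box d L → (x ∈ A ↔ x ∈ A')) →
  |FF (box d N) A - FF (box d N) A'| ≤ 4 * ((box d (L + 1) \ box d L).card : ℤ)

def St_DER : Prop := ∀ (d : ℕ) (q c : S d → ℝ) (B : Finset (S d)) (f : Finset (S d) → ℝ) (t : ℝ),
  HasDerivAt (fun t => Ex (fun x => q x + t * c x) B f)
    (∑ x ∈ B, c x * Ex (fun x => q x + t * c x) B (fun A => f (insert x A) - f (A.erase x))) t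

def St_CSI : Prop := ∀ (d : ℕ) (p : ℝ) (B : Finset (S d)) (c : S d → ℝ) (f : Finset (S d) → ℝ),
  0 < p → p < 1 → (∀ x ∈ B, 0 ≤ p + c x ∧ p + c x ≤ 1) → (∀ A, 0 ≤ f A) →
  Ex (fun x => p + c x) B f ≤
    Real.exp ((∑ x ∈ B, (c x) ^ 2) / (2 * (p * (1 - p)))) *
      Real.sqrt (Ex (fun _ => p) B (fun A => (f A) ^ 2))

/-- The probability that the origin is undecided after `r` rounds. -/
noncomputable def mr (d : ℕ) (p : ℝ) (r : ℕ) : ℝ := Pr (fun _ => p) (box d (2 * r + 2)) (Und r 0)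

def St_MEAN : Prop := ∀ (d r N : ℕ) (p : ℝ) (x : S d), (∀ y, l1 x y ≤ 2 * r + 1 → y ∈ box d N) →
  Pr (fun _ => p) (box d N) (Und r x) = mr d p r

open Classical in
def St_LLN : Prop := ∀ (d r L N : ℕ) (p : ℝ), 0 ≤ p → p ≤ 1 → L + 2 * r + 2 ≤ N →
  Ex (fun _ => p) (box d N) (fun A =>
    ((∑ x ∈ box d L, if Und r x A then (1 : ℝ) else 0) - (box d L).card * mr d p r) ^ 2)
  ≤ (box d L).card * (8 * r + 9) ^ d

def St_AWF : Prop := ∀ (d : ℕ) (p : ℝ), 1 ≤ d → d ≤ 2 → 0 < p → p < 1 →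
  ∀ ε : ℝ, 0 < ε → ∃ r, mr d p r < ε

/-- Finite volume probabilities are probabilities of cylinder events. -/
def St_BRI : Prop := ∀ (d : ℕ) (p : unitInterval) (B : Finset (S d)) (E : Finset (S d) → Prop),
  MeasurableSet {ω : S d → Bool | E (B.filter (fun x => ω x = true))} ∧
  Perc d p {ω | E (B.filter (fun x => ω x = true))} =
    ENNReal.ofReal (Pr (fun _ => (p : ℝ)) B E)

/-! ## Dimensions at least three -/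

def St_CUT : Prop := ∀ (d : ℕ), 2 ≤ d → ∀ (R : Finset (S d)) (v : S d), v ∈ R →
  (∀ x ∈ R, Relation.ReflTransGen (fun a b => a ∈ R ∧ b ∈ R ∧ adj a b) v x) →
  ∃ Wc : Finset (S d), R ⊆ Wc ∧ eb Wc ⊆ eb R ∧ SqConn (eb Wc)

def St_SHIFT : Prop := ∀ (d : ℕ), 2 ≤ d → ∀ (Lam : Finset (S d)), RayP Lam →
  ∀ (A : Finset (S d)) (v : S d), v ∈ Lam → v ∉ A →
  (∃ I, MaxInd (bd Lam (par v) ((A : Set (S d))ᶜ)) I ∧ v ∉ I) →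
  ∃ Wc : Finset (S d), v ∈ Wc ∧ Wc ⊆ Lam ∧ SqConn (eb Wc) ∧
    ∀ (j : Fin d) (π : Equiv.Perm (S d)), Shf Wc j π →
      al Lam (par v) A + (rt Wc j \ A).card ≤ al Lam (par v) (A.image π)

def St_PERM : Prop := ∀ (d : ℕ) (Wc : Finset (S d)) (j : Fin d),
  ∃ π : Equiv.Perm (S d), Shf Wc j π

/-- The one bit exponential moment bound. -/
def OneBit (p κ : ℝ) : Prop := ∀ s : ℝ,
  p * Real.exp (s * (1 - p)) + (1 - p) * Real.exp (-(s * p)) ≤ Real.exp (κ * s ^ 2)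

def St_KAPPA : Prop := ∀ κ : ℝ, 0 < κ → ∃ p0 : ℝ, 0 < p0 ∧ p0 ≤ 1 / 2 ∧
  ∀ p : ℝ, 0 < p → p ≤ p0 → OneBit p κ

def St_CONC : Prop := ∀ (d : ℕ) (p κ : ℝ) (B R : Finset (S d)) (X : Finset (S d) → ℝ),
  0 ≤ p → p ≤ 1 → 0 < κ → OneBit p κ → R ⊆ B →
  (∀ A ⊆ B, ∀ x ∈ R, |X (insert x A) - X (A.erase x)| ≤ 2) →
  (∀ A ⊆ B \ R, Ex (fun _ => p) R (fun A' => X (A ∪ A')) = 0) →
  ∀ t : ℝ, 0 < t → Pr (fun _ => p) B (fun A => t ≤ X A) ≤ Real.exp (-t ^ 2 / (16 * κ * R.card))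

def St_DEV : Prop := ∀ (d : ℕ) (p κ : ℝ) (Lam B R : Finset (S d)) (b : Bool)
  (π π' : Equiv.Perm (S d)), 0 ≤ p → p ≤ 1 → 0 < κ → OneBit p κ →
  (∀ y, y ∉ B → π y = y) → (∀ y, y ∉ B → π' y = y) → (∀ y, π y ≠ π' y → y ∈ R) →
  ∀ t : ℝ, 0 < t →
  Pr (fun _ => p) B (fun A => t ≤ (al Lam b (A.image π) : ℝ) - (al Lam b (A.image π') : ℝ)) ≤
    Real.exp (-t ^ 2 / (16 * κ * R.card))

def St_ISO : Prop := ∀ (d : ℕ) (a b : S d) (n : ℕ) (Wc : Finset (S d)),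
  (∀ i, b i + 1 - a i ≤ n) →
  (Wc ∩ Finset.Icc a b).card * (Finset.Icc a b \ Wc).card ≤
    n * (Finset.Icc a b).card *
      ((eb Wc).filter (fun e => e.1 ∈ Finset.Icc a b ∧ e.1 + ue e.2 ∈ Finset.Icc a b)).card

def St_CG : Prop := ∀ (d : ℕ), 1 ≤ d → ∀ (k : ℕ) (Wc : Finset (S d)),
  (symmDiff Wc (cg k Wc)).card ≤ 2 * 2 ^ k * (eb Wc).card ∧
  (eb (cgi k Wc)).card * 2 ^ (k * (d - 1)) ≤ 32 * d * (eb Wc).card ∧
  (eb (cg k Wc)).card ≤ 32 * d * (eb Wc).card ∧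
  (∀ e ∈ eb (cgi k Wc), ∃ f ∈ eb Wc, l1 f.1 (fun i => 2 ^ k * e.1 i) ≤ 2 * d * 2 ^ k) ∧
  (2 ^ (k * (d - 1)) > 32 * d * (eb Wc).card → cgi k Wc = ∅) ∧
  cgi 0 Wc = Wc ∧ cg 0 Wc = Wc

def St_WALK : Prop := ∀ (α : Type) [DecidableEq α] (r : α → α → Prop) (E : Finset α) (e0 : α),
  e0 ∈ E → (∀ x y, r x y → r y x) →
  (∀ x ∈ E, Relation.ReflTransGen (fun a b => a ∈ E ∧ b ∈ E ∧ r a b) e0 x) →
  ∃ l : List α, (e0 :: l).IsChain r ∧ l.length ≤ 2 * E.card ∧ (∀ x ∈ E, x ∈ e0 :: l)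

/-- The length of the path starting at `z` and visiting the base points of the edges of the
list. -/
def len {d : ℕ} : S d → List (S d × Fin d) → ℤ
  | _, [] => 0
  | z, e :: t => l1 z e.1 + len e.1 t

/-- Any set of coarse edges close to a connected set of edges can be visited by a short path. -/
def St_ORD : Prop := ∀ (d k : ℕ) (E F : Finset (S d × Fin d)) (e0 : S d × Fin d), e0 ∈ E →
  SqConn E →
  (∀ e ∈ F, ∃ f ∈ E, l1 f.1 (fun i => 2 ^ k * e.1 i) ≤ 2 * d * 2 ^ k) →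
  ∃ l : List (S d × Fin d), l.toFinset = F ∧ l.length = F.card ∧
    2 ^ k * len (cidx k e0.1) l ≤ 4 * E.card + 4 * d * 2 ^ k * F.card

def St_SEQ : Prop := ∀ (d : ℕ), ∃ C : ℝ, 0 < C ∧ ∀ (k f : ℕ) (D : ℝ) (z0 : S d), 0 ≤ D →
  ∃ T : Finset (List (S d × Fin d)),
    (∀ l : List (S d × Fin d), l.length = f → 2 ^ k * (len z0 l : ℝ) ≤ D → l ∈ T) ∧
    (T.card : ℝ) ≤ Real.exp (D / 4 ^ k + C * (k + 1) * f)

def St_COUNT : Prop := ∀ (d : ℕ), 3 ≤ d → ∃ C : ℝ, 0 < C ∧ ∀ (v : S d) (l k : ℕ),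
  ∃ T : Finset (Finset (S d)),
    (T.card : ℝ) ≤ Real.exp (C * ((k + 1) * l / 4 ^ k + 1)) ∧
    ∀ Wc : Finset (S d), v ∈ Wc → SqConn (eb Wc) → (eb Wc).card = l → cgi k Wc ∈ T

def St_PEI : Prop := ∀ (d : ℕ), 3 ≤ d → ∀ ε : ℝ, 0 < ε → ∃ p0 : ℝ, 0 < p0 ∧ p0 ≤ 1 ∧
  ∀ p : ℝ, 0 < p → p ≤ p0 → ∀ (v : S d) (B : Finset (S d)),
  Pr (fun _ => p) B (fun A => ∃ Wc : Finset (S d), Wc ⊆ B ∧ v ∈ Wc ∧ SqConn (eb Wc) ∧
    ∃ j, (eb Wc).card ≤ 4 * d * (rt Wc j ∩ A).card) ≤ ε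

def St_SUMA : Prop := ∀ (d : ℕ) (C ε : ℝ), 1 ≤ d → 0 < C → 0 < ε → ∃ κ : ℝ, 0 < κ ∧
  ∀ n K : ℕ, ∑ l ∈ Finset.Icc 1 n, ∑ k ∈ (Finset.range K).filter (fun k => 4 ^ k ≤ 32 * d * l),
    (d : ℝ) * Real.exp (2 * C * ((k + 1) * l / 4 ^ k + 1)) *
      Real.exp (-((7 / 8) ^ k * l / (32 * d)) ^ 2 / (16 * κ * (70 * d * 2 ^ k * l))) ≤ ε

def St_CHN : Prop := ∀ (d : ℕ), 3 ≤ d → ∀ ε : ℝ, 0 < ε → ∃ κ : ℝ, 0 < κ ∧
  ∀ p : ℝ, 0 < p → p ≤ 1 → OneBit p κ → ∀ (v : S d) (b : Bool) (Lam : Finset (S d)),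
  Pr (fun _ => p) Lam (fun A => ∃ Wc : Finset (S d), Wc ⊆ Lam ∧ v ∈ Wc ∧ SqConn (eb Wc) ∧
    ∃ j, ∀ π, Shf Wc j π →
      ((eb Wc).card : ℝ) / (4 * d) < (al Lam b (A.image π) : ℝ) - (al Lam b A : ℝ)) ≤ ε

/-- With small density of closed sites the ground state is typically the one of its class. -/
def St_BAD : Prop := ∀ (d : ℕ), 3 ≤ d → ∀ ε : ℝ, 0 < ε → ∃ p0 : ℝ, 0 < p0 ∧ p0 ≤ 1 ∧
  ∀ p : ℝ, 0 < p → p ≤ p0 → ∀ (Lam : Finset (S d)), RayP Lam → ∀ v ∈ Lam,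
  Pr (fun _ => p) Lam (fun A => v ∉ A ∧
    ∃ I, MaxInd (bd Lam (par v) ((A : Set (S d))ᶜ)) I ∧ v ∉ I) ≤ ε

end Pool.Agent.W845.TR
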