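import Pool.Agent.W845.TR.Base

set_option autoImplicit false
open scoped BigOperators
open MeasureTheory

/-!
Project TR (MP_985e29_pr): finite volume probabilities are probabilities of cylinder events.
-/

namespace Pool.Agent.W845.TR

variable {d : ℕ}

theorem bern_true (p : unitInterval) : bern p {true} = ENNReal.ofReal (p : ℝ) := by
  unfold bern; simp

theorem bern_false (p : unitInterval) : bern p {false} = ENNReal.ofReal (1 - (p : ℝ)) := by
  unfold bern; simp

theorem cyl_eq (B A : Finset (S d)) (hA : A ⊆ B) :
    {ω : S d → Bool | B.filter (fun x => ω x = true) = A} =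
      Set.pi (B : Set (S d)) (fun x => {decide (x ∈ A)}) := by
  ext ω
  simp only [Set.mem_ofPred_eq, Set.mem_pi, Finset.mem_coe, Set.mem_singleton_iff]
  constructor
  · rintro rfl x hx
    cases h : ω x <;> simp [hx, h]
  · intro h
    ext x
    rw [Finset.mem_filter]
    constructor
    · rintro ⟨h1, h2⟩
      have := h x h1
      rw [h2] at this
      simpa using this.symm
    · intro h1
      have := h x (hA h1)
      simp [h1] at this
      exact ⟨hA h1, this⟩

theorem cyl_meas (B A : Finset (S d)) (hA : A ⊆ B) :
    MeasurableSet {ω : S d → Bool | B.filter (fun x => ω x = true) = A} := by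
  rw [cyl_eq B A hA]
  exact MeasurableSet.pi B.countable_toSet (fun x _ => MeasurableSet.of_discrete)

theorem cyl_perc (p : unitInterval) (B A : Finset (S d)) (hA : A ⊆ B) :
    Perc d p {ω : S d → Bool | B.filter (fun x => ω x = true) = A} =
      ENNReal.ofReal (wt (fun _ => (p : ℝ)) B A) := by
  rw [cyl_eq B A hA]
  unfold Perc
  rw [Measure.infinitePi_pi _ (fun x _ => MeasurableSet.of_discrete)]
  unfold wt
  rw [ENNReal.ofReal_prod_of_nonneg]
  · refine Finset.prod_congr rfl (fun x _ => ?_)
    by_cases h : x ∈ A
    · simp only [h, decide_true, if_true]; exact bern_true p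
    · simp only [h, decide_false, if_false]; exact bern_false p
  · intro x _
    have := p.2
    split_ifs
    · exact this.1
    · linarith [this.2]

theorem bri : St_BRI := by
  classical
  intro d p B E
  have e1 : {ω : S d → Bool | E (B.filter (fun x => ω x = true))} =
      ⋃ A ∈ B.powerset.filter E, {ω : S d → Bool | B.filter (fun x => ω x = true) = A} := by
    ext ω
    simp only [Set.mem_ofPred_eq, Set.mem_iUnion, Finset.mem_filter, Finset.mem_powerset,
      exists_prop, exists_eq_right']
    constructor
    · intro h; exact ⟨Finset.filter_subset _ _, h⟩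
    · intro h; exact h.2
  have hm : ∀ A ∈ B.powerset.filter E,
      MeasurableSet {ω : S d → Bool | B.filter (fun x => ω x = true) = A} := by
    intro A hA
    exact cyl_meas B A (Finset.mem_powerset.1 (Finset.mem_filter.1 hA).1)
  rw [e1]
  refine ⟨Finset.measurableSet_biUnion _ hm, ?_⟩
  rw [measure_biUnion_finset ?_ hm]
  · have h2 : ∀ A ∈ B.powerset.filter E,
        Perc d p {ω : S d → Bool | B.filter (fun x => ω x = true) = A} =
          ENNReal.ofReal (wt (fun _ => (p : ℝ)) B A) := by
      intro A hA
      exact cyl_perc p B A (Finset.mem_powerset.1 (Finset.mem_filter.1 hA).1)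
    rw [Finset.sum_congr rfl h2, ← ENNReal.ofReal_sum_of_nonneg]
    · congr 1
      unfold Pr Ex
      rw [Finset.sum_filter]
      refine Finset.sum_congr rfl (fun A _ => ?_)
      by_cases h : E A <;> simp [h]
    · intro A _
      exact wt_nonneg _ _ _ (fun x _ => p.2)
  · intro A _ A' _ hne
    refine Set.disjoint_left.2 (fun ω h1 h2 => hne ?_)
    exact h1.symm.trans h2

end Pool.Agent.W845.TR
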