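import Pool.Agent.W845.TR.Base

set_option autoImplicit false
open scoped BigOperators

/-!
Project TR (MP_985e29_pr): the filling of a connected set has a connected boundary.
-/

namespace Pool.Agent.W845.TR

variable {d : ℕ}

theorem mem_eb {W : Finset (S d)} {e : S d × Fin d} :
    e ∈ eb W ↔ ¬ (e.1 ∈ W ↔ e.1 + ue e.2 ∈ W) := by
  unfold eb
  rw [Finset.mem_filter]
  constructor
  · exact fun h => h.2
  · intro h
    refine ⟨?_, h⟩
    rw [Finset.mem_product]
    refine ⟨?_, Finset.mem_univ _⟩
    rw [Finset.mem_union, Finset.mem_biUnion]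
    by_cases h1 : e.1 ∈ W
    · exact Or.inl h1
    · have h2 : e.1 + ue e.2 ∈ W := by tauto
      exact Or.inr ⟨_, h2, mem_nb.2 (adj_symm (adj_add_ue _ _))⟩

theorem sqAdj_symm {e f : S d × Fin d} (h : sqAdj e f) : sqAdj f e := by
  obtain ⟨x, i, j, h1, h2, h3⟩ := h
  exact ⟨x, i, j, h1, h3, h2⟩

theorem z2 (a b : ZMod 2) : ¬ (a ≠ 0 ↔ b ≠ 0) ↔ a + b = 1 := by revert a b; decide

theorem z2' (a b : ZMod 2) (h : a + b = 0) : a = b := by revert a b; decide

theorem z2'' (a : ZMod 2) : a + a = 0 := by revert a; decide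

theorem cut : St_CUT := by
  classical
  intro d hd R v hv hconn
  set i0 : Fin d := ⟨0, by omega⟩ with hi0
  set i1 : Fin d := ⟨1, by omega⟩ with hi1
  have h01 : i1 ≠ i0 := by
    intro h; rw [hi0, hi1, Fin.mk.injEq] at h; omega
  -- the last point of R on the ray
  obtain ⟨x0, hx0, hx0max⟩ := Finset.exists_max_image (R.filter (fun x => ∀ k, k ≠ i0 → x k = v k))
    (fun x => x i0) ⟨v, Finset.mem_filter.2 ⟨hv, fun k _ => rfl⟩⟩
  rw [Finset.mem_filter] at hx0
  have hout : ∀ s : ℕ, x0 + ((s : ℤ) + 1) • ue i0 ∉ R := by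
    intro s hs
    have := hx0max (x0 + ((s : ℤ) + 1) • ue i0) (Finset.mem_filter.2 ⟨hs, fun k hk => by
      simp [ue, hk, hx0.2 k hk]⟩)
    simp [ue] at this
    have h2 : (0 : ℤ) ≤ s := by positivity
    omega
  set E := eb R with hE
  set e0 : S d × Fin d := (x0, i0) with he0
  have he0E : e0 ∈ E := by
    rw [hE, mem_eb]
    have := hout 0
    simp only [Nat.cast_zero, zero_add, one_smul] at this
    simp only [he0]
    tauto
  set rel : S d × Fin d → S d × Fin d → Prop := fun a b => a ∈ E ∧ b ∈ E ∧ sqAdj a b with hrel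
  set G : Finset (S d × Fin d) := E.filter (fun f => Relation.ReflTransGen rel e0 f) with hG
  have he0G : e0 ∈ G := Finset.mem_filter.2 ⟨he0E, Relation.ReflTransGen.refl⟩
  have hGE : G ⊆ E := Finset.filter_subset _ _
  have hGadj : ∀ f ∈ G, ∀ f' ∈ E, sqAdj f f' → f' ∈ G := by
    intro f hf f' hf' h
    rw [hG, Finset.mem_filter] at hf ⊢
    exact ⟨hf', hf.2.tail ⟨hf.1, hf', h⟩⟩
  let g : S d → Fin d → ZMod 2 := fun x j => if (x, j) ∈ G then 1 else 0
  let r : S d → ZMod 2 := fun x => if x ∈ R then 1 else 0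
  have hgr : ∀ x j, ((x, j) ∈ G ∨ (x, j) ∉ E) → g x j = r x + r (x + ue j) := by
    intro x j h
    have h1 : (x, j) ∈ E ↔ ¬ (x ∈ R ↔ x + ue j ∈ R) := mem_eb
    by_cases h2 : (x, j) ∈ G
    · have h3 := h1.1 (hGE h2)
      simp only [g, r, if_pos h2]
      by_cases ha : x ∈ R <;> by_cases hb : x + ue j ∈ R <;> simp [ha, hb] at h3 ⊢
    · have h4 : (x, j) ∉ E := by tauto
      have h3 : (x ∈ R ↔ x + ue j ∈ R) := by
        by_contra hc; exact h4 (h1.2 hc)
      simp only [g, r, if_neg h2]
      by_cases ha : x ∈ R <;> by_cases hb : x + ue j ∈ R <;> simp [ha, hb] at h3 ⊢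
      decide
  have hsq : ∀ x i j, i ≠ j → g x i + g (x + ue j) i + (g x j + g (x + ue i) j) = 0 := by
    intro x i j hij
    by_cases hex : ∃ f ∈ sq x i j, f ∈ G
    · obtain ⟨f, hf, hfG⟩ := hex
      have hall : ∀ f' ∈ sq x i j, f' ∈ G ∨ f' ∉ E := by
        intro f' hf'
        by_cases h : f' ∈ E
        · exact Or.inl (hGadj f hfG f' h ⟨x, i, j, hij, hf, hf'⟩)
        · exact Or.inr h
      rw [hgr x i (hall _ (by simp [sq])), hgr (x + ue j) i (hall _ (by simp [sq])),
        hgr x j (hall _ (by simp [sq])), hgr (x + ue i) j (hall _ (by simp [sq]))]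
      have e1 : x + ue j + ue i = x + ue i + ue j := by abel
      rw [e1]
      generalize r x = a
      generalize r (x + ue i) = b
      generalize r (x + ue j) = c
      generalize r (x + ue i + ue j) = e
      revert a b c e
      decide
    · push Not at hex
      have h1 := hex (x, i) (by simp [sq])
      have h2 := hex (x + ue j, i) (by simp [sq])
      have h3 := hex (x, j) (by simp [sq])
      have h4 := hex (x + ue i, j) (by simp [sq])
      simp [g, h1, h2, h3, h4]
  -- a bound
  obtain ⟨M, hM⟩ : ∃ M : ℕ, ∀ e ∈ G, ∀ k, |e.1 k| ≤ M := by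
    refine ⟨∑ e ∈ G, ∑ k, (e.1 k).natAbs, fun e he k => ?_⟩
    have h1 : (e.1 k).natAbs ≤ ∑ k, (e.1 k).natAbs :=
      Finset.single_le_sum (f := fun k => (e.1 k).natAbs) (fun _ _ => Nat.zero_le _)
        (Finset.mem_univ k)
    have h2 : ∑ k, (e.1 k).natAbs ≤ ∑ e ∈ G, ∑ k, (e.1 k).natAbs :=
      Finset.single_le_sum (f := fun e : S d × Fin d => ∑ k, (e.1 k).natAbs)
        (fun _ _ => Nat.zero_le _) he
    rw [Int.abs_eq_natAbs]
    exact_mod_cast h1.trans h2
  have hg0 : ∀ x j k, (M : ℤ) < |x k| → g x j = 0 := by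
    intro x j k h
    have : (x, j) ∉ G := fun hc => absurd (hM _ hc k) (by simpa using h)
    simp [g, this]
  let T : S d → ℕ := fun x => ((M : ℤ) + 1 - x i0).toNat
  let w : S d → ZMod 2 := fun x => ∑ t ∈ Finset.range (T x), g (x + (t : ℤ) • ue i0) i0
  have htel : ∀ (x : S d) (j : Fin d) (n : ℕ),
      ∑ t ∈ Finset.range n, (g (x + (t : ℤ) • ue i0) j + g (x + ((t : ℤ) + 1) • ue i0) j) =
        g x j + g (x + (n : ℤ) • ue i0) j := by
    intro x j n
    induction n with
    | zero => simp [z2'']
    | succ n ih =>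
      rw [Finset.sum_range_succ, ih]
      push_cast
      generalize g x j = a
      generalize g (x + (n : ℤ) • ue i0) j = b
      generalize g (x + ((n : ℤ) + 1) • ue i0) j = c
      revert a b c
      decide
  have hwj : ∀ x j, w x + w (x + ue j) = g x j := by
    intro x j
    by_cases hj : j = i0
    · subst hj
      by_cases hT : (M : ℤ) < x i0
      · have h1 : T x = 0 := by simp only [T]; omega
        have h2 : T (x + ue i0) = 0 := by
          simp only [T, Pi.add_apply, ue, Pi.single_eq_same]; omega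
        simp only [w, h1, h2, Finset.range_zero, Finset.sum_empty, add_zero]
        exact (hg0 x i0 i0 (lt_of_lt_of_le hT (le_abs_self _))).symm
      · obtain ⟨n, hn⟩ : ∃ n, T x = n + 1 := ⟨T x - 1, by simp only [T]; omega⟩
        have h2 : T (x + ue i0) = n := by
          simp only [T, Pi.add_apply, ue, Pi.single_eq_same] at hn ⊢; omega
        simp only [w, hn, h2]
        rw [Finset.sum_range_succ']
        have : ∀ t : ℕ, x + ((t + 1 : ℕ) : ℤ) • ue i0 = x + ue i0 + (t : ℤ) • ue i0 := by
          intro t; push_cast; rw [add_smul, one_smul]; abel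
        simp only [this, Nat.cast_zero, zero_smul, add_zero]
        generalize ∑ t ∈ Finset.range n, g (x + ue i0 + (t : ℤ) • ue i0) i0 = a
        generalize g x i0 = b
        revert a b
        decide
    · have h1 : T (x + ue j) = T x := by
        simp only [T, Pi.add_apply, ue]
        rw [Pi.single_eq_of_ne (Ne.symm hj)]; simp
      simp only [w, h1]
      rw [← Finset.sum_add_distrib]
      have h2 : ∀ t ∈ Finset.range (T x), g (x + (t : ℤ) • ue i0) i0 +
          g (x + ue j + (t : ℤ) • ue i0) i0 =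
          g (x + (t : ℤ) • ue i0) j + g (x + ((t : ℤ) + 1) • ue i0) j := by
        intro t _
        have h3 := hsq (x + (t : ℤ) • ue i0) i0 j (Ne.symm hj)
        have e1 : x + (t : ℤ) • ue i0 + ue j = x + ue j + (t : ℤ) • ue i0 := by abel
        have e2 : x + (t : ℤ) • ue i0 + ue i0 = x + ((t : ℤ) + 1) • ue i0 := by
          rw [add_smul, one_smul]; abel
        rw [e1, e2] at h3
        exact z2' _ _ h3
      rw [Finset.sum_congr rfl h2, htel]
      have h4 : g (x + ((T x : ℕ) : ℤ) • ue i0) j = 0 := by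
        refine hg0 _ _ i0 ?_
        have : (x + ((T x : ℕ) : ℤ) • ue i0) i0 = x i0 + T x := by simp [ue]
        rw [this]
        refine lt_of_lt_of_le ?_ (le_abs_self _)
        simp only [T]; omega
      rw [h4, add_zero]
  -- finite support
  have hw0a : ∀ x k, k ≠ i0 → (M : ℤ) < |x k| → w x = 0 := by
    intro x k hk h
    simp only [w]
    refine Finset.sum_eq_zero (fun t _ => hg0 _ _ k ?_)
    have : (x + (t : ℤ) • ue i0) k = x k := by simp [ue, hk]
    rw [this]; exact h
  have hw0b : ∀ x, (M : ℤ) < x i0 → w x = 0 := by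
    intro x h
    have h1 : T x = 0 := by simp only [T]; omega
    simp only [w, h1, Finset.range_zero, Finset.sum_empty]
  have hw0c : ∀ x, x i0 < -(M : ℤ) → w x = 0 := by
    intro x h
    have hstep : ∀ s : ℕ, w (x + (s : ℤ) • ue i1) = w x := by
      intro s
      induction s with
      | zero => simp
      | succ s ih =>
        have h1 := hwj (x + (s : ℤ) • ue i1) i1
        have h2 : g (x + (s : ℤ) • ue i1) i1 = 0 := by
          refine hg0 _ _ i0 ?_
          have : (x + (s : ℤ) • ue i1) i0 = x i0 := by simp [ue, Ne.symm h01]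
          rw [this]
          refine lt_of_lt_of_le ?_ (neg_le_abs _)
          omega
        rw [h2] at h1
        have h3 := z2' _ _ h1
        have e2 : x + (s : ℤ) • ue i1 + ue i1 = x + ((s + 1 : ℕ) : ℤ) • ue i1 := by
          push_cast; rw [add_smul, one_smul]; abel
        rw [e2] at h3
        rw [← h3, ih]
    have h1 := hstep ((M : ℤ) + 1 - x i1).toNat
    rw [← h1]
    refine hw0a _ i1 h01 ?_
    have : (x + ((((M : ℤ) + 1 - x i1).toNat : ℕ) : ℤ) • ue i1) i1 =
        x i1 + ((((M : ℤ) + 1 - x i1).toNat : ℕ) : ℤ) := by simp [ue]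
    rw [this]
    refine lt_of_lt_of_le ?_ (le_abs_self _)
    omega
  have hw0 : ∀ x, x ∉ box d M → w x = 0 := by
    intro x hx
    rw [mem_box] at hx
    push Not at hx
    obtain ⟨k, hk⟩ := hx
    by_cases hk0 : k = i0
    · subst hk0
      by_cases h : -(M : ℤ) ≤ x i0
      · exact hw0b x (hk h)
      · exact hw0c x (not_le.1 h)
    · refine hw0a x k hk0 ?_
      by_cases h : -(M : ℤ) ≤ x k
      · exact lt_of_lt_of_le (hk h) (le_abs_self _)
      · refine lt_of_lt_of_le ?_ (neg_le_abs _)
        omega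
  set Wc : Finset (S d) := (box d M).filter (fun x => w x ≠ 0) with hWc
  have hmW : ∀ x, x ∈ Wc ↔ w x ≠ 0 := by
    intro x
    rw [hWc, Finset.mem_filter]
    constructor
    · exact fun h => h.2
    · intro h
      refine ⟨?_, h⟩
      by_contra hc
      exact h (hw0 x hc)
  have hebW : eb Wc = G := by
    ext ⟨x, j⟩
    rw [mem_eb]
    simp only [hmW]
    rw [z2, hwj]
    simp only [g]
    by_cases h : (x, j) ∈ G <;> simp [h]
  refine ⟨Wc, ?_, ?_, ?_⟩
  · -- R ⊆ Wc
    have hx0W : x0 ∈ Wc := by
      rw [hmW]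
      have h1 : w x0 = 1 := by
        simp only [w]
        have hT : ∃ n, T x0 = n + 1 := by
          refine ⟨T x0 - 1, ?_⟩
          have := hM e0 he0G i0
          have h2 : x0 i0 ≤ M := (le_abs_self _).trans this
          simp only [T]; omega
        obtain ⟨n, hn⟩ := hT
        rw [hn, Finset.sum_range_succ']
        have h3 : ∀ t ∈ Finset.range n, g (x0 + ((t + 1 : ℕ) : ℤ) • ue i0) i0 = 0 := by
          intro t _
          have h4 : (x0 + ((t + 1 : ℕ) : ℤ) • ue i0, i0) ∉ G := by
            intro hc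
            have h5 := hGE hc
            rw [hE, mem_eb] at h5
            have h6 := hout t
            have h7 := hout (t + 1)
            have e2 : x0 + ((t + 1 : ℕ) : ℤ) • ue i0 + ue i0 =
                x0 + (((t + 1 : ℕ) : ℤ) + 1) • ue i0 := by
              rw [add_smul (((t + 1 : ℕ) : ℤ)) 1, one_smul]; abel
            simp only at h5
            rw [e2] at h5
            have h8 : x0 + ((t + 1 : ℕ) : ℤ) • ue i0 ∉ R := by push_cast; exact h6
            tauto
          exact if_neg h4
        rw [Finset.sum_eq_zero h3]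
        have h5 : (x0, i0) ∈ G := he0G
        simp [g, h5]
      rw [h1]; decide
    have hstep : ∀ a b, a ∈ R → b ∈ R → adj a b → (a ∈ Wc ↔ b ∈ Wc) := by
      intro a b ha hb hab
      by_contra hc
      obtain ⟨j, rfl | rfl⟩ := adj_cases hab
      · have h1 : (a, j) ∈ eb Wc := mem_eb.2 hc
        rw [hebW] at h1
        have h2 := mem_eb.1 (hGE h1)
        simp only at h2
        tauto
      · have h1 : (a - ue j, j) ∈ eb Wc := by
          rw [mem_eb]; simp only [sub_add_cancel]; tauto
        rw [hebW] at h1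
        have h2 := mem_eb.1 (hGE h1)
        simp only [sub_add_cancel] at h2
        tauto
    have hall : ∀ x ∈ R, (v ∈ Wc ↔ x ∈ Wc) := by
      intro x hx
      have h1 := hconn x hx
      clear hx
      induction h1 with
      | refl => exact Iff.rfl
      | tail _ h2 ih => exact ih.trans (hstep _ _ h2.1 h2.2.1 h2.2.2)
    intro x hx
    exact (hall x hx).1 ((hall x0 hx0.1).2 hx0W)
  · rw [hebW]; exact hGE
  · rw [hebW]
    -- chains stay in G
    have hchain : ∀ f, Relation.ReflTransGen rel e0 f → f ∈ G ∧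
        Relation.ReflTransGen (fun a b => a ∈ G ∧ b ∈ G ∧ sqAdj a b) e0 f := by
      intro f hf
      induction hf with
      | refl => exact ⟨he0G, Relation.ReflTransGen.refl⟩
      | tail h1 h2 ih =>
        have h3 := hGadj _ ih.1 _ h2.2.1 h2.2.2
        exact ⟨h3, ih.2.tail ⟨ih.1, h3, h2.2.2⟩⟩
    intro e he f hf
    have h1 := (hchain e (Finset.mem_filter.1 he).2).2
    have h2 := (hchain f (Finset.mem_filter.1 hf).2).2
    refine Relation.ReflTransGen.trans ?_ h2
    clear h2
    induction h1 with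
    | refl => exact Relation.ReflTransGen.refl
    | tail h3 h4 ih =>
      exact Relation.ReflTransGen.head ⟨h4.2.1, h4.1, sqAdj_symm h4.2.2⟩ (ih h4.1)

end Pool.Agent.W845.TR
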