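import Pool.Agent.W845.TR.Base

set_option autoImplicit false
open scoped BigOperators
open MeasureTheory

/-!
Project TR (MP_985e29_pr): final assembly from the parts.
-/

namespace Pool.Agent.W845.TR

variable {d : ℕ}

/-- The two boards agree near the origin. -/
theorem agree_ball {r : ℕ} (ω : S d → Bool) (B : Finset (S d))
    (hB : ∀ y, l1 (0 : S d) y ≤ 2 * r + 1 → y ∈ B) (h0 : ω 0 = false) (y : S d)
    (hy : l1 (0 : S d) y ≤ 2 * r + 1) :
    (y ∈ ((((B.filter (fun x => ω x = true)).erase 0 : Finset (S d)) : Set (S d))ᶜ) ↔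
      y ∈ opn ω) := by
  have h1 := hB y hy
  simp only [Set.mem_compl_iff, Finset.mem_coe, Finset.mem_erase, Finset.mem_filter, opn,
    Set.mem_ofPred_eq]
  by_cases hy0 : y = 0
  · subst hy0; simp [h0]
  · simp [hy0, h1]

theorem draw_und (hS : St_STRAT) {r : ℕ} (ω : S d → Bool) (B : Finset (S d))
    (hB : ∀ y, l1 (0 : S d) y ≤ 2 * r + 1 → y ∈ B) (h : Draw (opn ω) 0) :
    Und r 0 (B.filter (fun x => ω x = true)) := by
  obtain ⟨h1, h2⟩ := h
  have e1 := (hS d (opn ω) 0).1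
  have e2 := (hS d (opn ω) 0).2
  have h0 : (0 : S d) ∈ opn ω := by
    by_contra hc
    exact h1 (e1.2 (Or.inl hc))
  have h0' : ω 0 = false := h0
  have hag := agree_ball (r := r) ω B hB h0'
  constructor
  · intro hW
    apply h1
    refine e1.2 (Or.inr ⟨r, W_local (fun y hy => hag y (by omega)) hW⟩)
  · intro hW
    apply h2
    refine e2.2 ⟨h0, r, fun y hy => ?_⟩
    have hxy : l1 (0 : S d) y = 1 := hy.1
    have hy' : Legal ((((B.filter (fun x => ω x = true)).erase 0 : Finset (S d)) :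
        Set (S d))ᶜ) 0 {0} y :=
      ⟨hy.1, (hag y (by rw [hxy]; omega)).2 hy.2.1, hy.2.2⟩
    refine W_local (fun z hz => hag z ?_) (hW y hy')
    have := l1_tri (0 : S d) y z
    omega

/-- No draws in dimensions one and two. -/
theorem low (hS : St_STRAT) (hA : St_AWF) (hB : St_BRI) :
    ∀ d : ℕ, 1 ≤ d → d ≤ 2 → ∀ p : unitInterval, 0 < (p : ℝ) →
      Perc d p {ω | Draw (opn ω) 0} = 0 := by
  intro d hd1 hd2 p hp
  by_cases hp1 : (p : ℝ) < 1
  · refine le_antisymm ?_ zero_le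
    refine ENNReal.le_of_forall_pos_le_add (fun ε hε _ => ?_)
    obtain ⟨r, hr⟩ := hA d p hd1 hd2 hp hp1 (ε : ℝ) (by exact_mod_cast hε)
    have h1 := (hB d p (box d (2 * r + 2)) (Und r 0)).2
    have hsub : {ω : S d → Bool | Draw (opn ω) 0} ⊆
        {ω | Und r 0 ((box d (2 * r + 2)).filter (fun x => ω x = true))} := by
      intro ω hω
      refine draw_und hS ω _ (fun y hy => ?_) hω
      have h0 : (0 : S d) ∈ box d 0 := by rw [mem_box]; intro i; simp
      refine ball_box (M := 0) (r := 2 * r + 1) (by omega) h0 ?_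
      push_cast; exact hy
    refine (measure_mono hsub).trans ?_
    rw [h1, zero_add]
    refine ENNReal.ofReal_le_of_le_toReal ?_
    simp only [ENNReal.coe_toReal]
    exact hr.le
  · have hp' : (p : ℝ) = 1 := le_antisymm p.2.2 (not_lt.1 hp1)
    have h1 := (hB d p {0} (fun A => (0 : S d) ∉ A)).2
    have hsub : {ω : S d → Bool | Draw (opn ω) 0} ⊆
        {ω | (0 : S d) ∉ (({0} : Finset (S d)).filter (fun x => ω x = true))} := by
      intro ω hω
      have h0 : (0 : S d) ∈ opn ω := by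
        by_contra hc
        exact hω.1 (((hS d (opn ω) 0).1).2 (Or.inl hc))
      have h0' : ω 0 = false := h0
      simp [h0']
    have h2 : Pr (fun _ => (p : ℝ)) {(0 : S d)} (fun A => (0 : S d) ∉ A) = 0 := by
      rw [Pr_not, Pr_mem _ _ _ (Finset.mem_singleton_self _), hp']; ring
    rw [h2] at h1
    refine le_antisymm ((measure_mono hsub).trans ?_) zero_le
    rw [h1]; simp

/-- The measure of the event that `v` is closed. -/
theorem perc_closed (hB : St_BRI) (d : ℕ) (p : unitInterval) (v : S d) :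
    Perc d p {ω | ω v = true} = ENNReal.ofReal (p : ℝ) := by
  have h1 := (hB d p {v} (fun A => v ∈ A)).2
  rw [Pr_mem _ _ _ (Finset.mem_singleton_self _)] at h1
  rw [← h1]
  congr 1
  ext ω
  simp

/-- The bad event, in infinite volume. -/
def BadE (Lam : Finset (S d)) (v : S d) : Set (S d → Bool) :=
  {ω | v ∈ opn ω ∧ ∃ I, MaxInd (bd Lam (par v) (opn ω)) I ∧ v ∉ I}

theorem perc_bad (hB : St_BRI) (d : ℕ) (p : unitInterval) (Lam : Finset (S d)) (v : S d)
    (hv : v ∈ Lam) (ε : ℝ)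
    (h : Pr (fun _ => (p : ℝ)) Lam (fun A => v ∉ A ∧
      ∃ I, MaxInd (bd Lam (par v) ((A : Set (S d))ᶜ)) I ∧ v ∉ I) ≤ ε) :
    Perc d p (BadE Lam v) ≤ ENNReal.ofReal ε := by
  have h1 := (hB d p Lam (fun A => v ∉ A ∧
      ∃ I, MaxInd (bd Lam (par v) ((A : Set (S d))ᶜ)) I ∧ v ∉ I)).2
  refine le_trans (measure_mono ?_) (h1.le.trans (ENNReal.ofReal_le_ofReal h))
  rintro ω ⟨h2, I, h3, h4⟩
  have h2' : ω v = false := h2
  refine ⟨by simp [h2'], I, ?_, h4⟩
  have e : bd Lam (par v) (((Lam.filter (fun x => ω x = true) : Finset (S d)) :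
      Set (S d))ᶜ) = bd Lam (par v) (opn ω) := by
    ext y
    simp only [mem_bd, Set.mem_compl_iff, Finset.mem_coe, Finset.mem_filter, opn,
      Set.mem_ofPred_eq]
    constructor
    · rintro ⟨a, b, c⟩
      refine ⟨a, b, ?_⟩
      by_contra hc
      exact c ⟨a, by simpa using hc⟩
    · rintro ⟨a, b, c⟩
      exact ⟨a, b, fun hc => by rw [hc.2] at c; exact absurd c (by simp)⟩
  rw [e]; exact h3

/-- Draws in dimensions at least three. -/
theorem high (hS : St_STRAT) (hD1 : St_GD1) (hD2 : St_GD2) (hBad : St_BAD) (hB : St_BRI) :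
    ∀ d : ℕ, 3 ≤ d → ∀ ε : ℝ, 0 < ε → ∃ p0 : ℝ, 0 < p0 ∧ ∀ p : unitInterval, 0 < (p : ℝ) →
      (p : ℝ) ≤ p0 → ENNReal.ofReal (1 - ε) ≤ Perc d p {ω | Draw (opn ω) 0} := by
  intro d hd ε hε
  obtain ⟨p1, hp1, hp1', hbad⟩ := hBad d hd (ε / 4) (by positivity)
  refine ⟨min p1 (ε / 4), lt_min hp1 (by positivity), fun p hp hpp => ?_⟩
  have hpp1 : (p : ℝ) ≤ p1 := hpp.trans (min_le_left _ _)
  have hpp2 : (p : ℝ) ≤ ε / 4 := hpp.trans (min_le_right _ _)
  set e : S d := ue ⟨0, by omega⟩ with he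
  have he1 : adj (0 : S d) e := by
    have := adj_add_ue (0 : S d) ⟨0, by omega⟩
    rwa [zero_add] at this
  -- first player wins
  let F : ℕ → Set (S d → Bool) := fun n => {ω | (0 : S d) ∈ opn ω ∧ W (opn ω) n 0 {0}}
  let G : ℕ → Set (S d → Bool) := fun n =>
    {ω | (0 : S d) ∈ opn ω ∧ e ∈ opn ω ∧ ∀ y, Legal (opn ω) 0 {0} y → W (opn ω) n y {y, 0}}
  have h0 : (0 : S d) ∈ box d 0 := by rw [mem_box]; intro i; simp
  have hF : ∀ n, Perc d p (F n) ≤ ENNReal.ofReal (ε / 4) := by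
    intro n
    have hball : ∀ y, l1 (0 : S d) y ≤ 2 * n + 1 → y ∈ box d (2 * n + 1) := fun y hy =>
      ball_box (M := 0) (r := 2 * n + 1) (by omega) h0 (by push_cast; exact hy)
    refine le_trans (measure_mono ?_) (perc_bad hB d p (box d (2 * n + 1)) 0
      (hball 0 (by rw [l1_self]; positivity)) (ε / 4) (hbad p hp hpp1 _ (rayP_box _) 0
        (hball 0 (by rw [l1_self]; positivity))))
    rintro ω ⟨h1, h2⟩
    exact ⟨h1, hD1 d _ (opn ω) 0 n hball h1 h2⟩
  have hG : ∀ n, Perc d p (G n) ≤ ENNReal.ofReal (ε / 4) := by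
    intro n
    have hball : ∀ y, l1 (0 : S d) y ≤ 2 * n + 2 → y ∈ box d (2 * n + 2) := fun y hy =>
      ball_box (M := 0) (r := 2 * n + 2) (by omega) h0 (by push_cast; exact hy)
    have heb : e ∈ box d (2 * n + 2) := hball e (by
      have : l1 (0 : S d) e = 1 := he1
      rw [this]; omega)
    refine le_trans (measure_mono ?_) (perc_bad hB d p (box d (2 * n + 2)) e
      heb (ε / 4) (hbad p hp hpp1 _ (rayP_box _) e heb))
    rintro ω ⟨h1, h2, h3⟩
    refine ⟨h2, ?_⟩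
    have h4 := hD2 d _ (opn ω) 0 n hball h1 h3
    rw [par_adj he1]
    obtain ⟨I, hI⟩ := exists_maxInd (bd (box d (2 * n + 2)) (!par (0 : S d)) (opn ω))
    exact ⟨I, hI, fun hc => hI.2.1 0 (h4 I hI) e hc he1⟩
  have hFm : Monotone F := by
    intro m n hmn ω hω
    exact ⟨hω.1, W_mono hmn hω.2⟩
  have hGm : Monotone G := by
    intro m n hmn ω hω
    exact ⟨hω.1, hω.2.1, fun y hy => W_mono hmn (hω.2.2 y hy)⟩
  have hF' : Perc d p (⋃ n, F n) ≤ ENNReal.ofReal (ε / 4) := by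
    rw [hFm.measure_iUnion]; exact iSup_le hF
  have hG' : Perc d p (⋃ n, G n) ≤ ENNReal.ofReal (ε / 4) := by
    rw [hGm.measure_iUnion]; exact iSup_le hG
  have hc0 : Perc d p {ω | ω 0 = true} ≤ ENNReal.ofReal (ε / 4) := by
    rw [perc_closed hB]; exact ENNReal.ofReal_le_ofReal hpp2
  have hce : Perc d p {ω | ω e = true} ≤ ENNReal.ofReal (ε / 4) := by
    rw [perc_closed hB]; exact ENNReal.ofReal_le_ofReal hpp2
  have hcov : (Set.univ : Set (S d → Bool)) ⊆ {ω | Draw (opn ω) 0} ∪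
      (({ω | ω 0 = true} ∪ {ω | ω e = true}) ∪ ((⋃ n, F n) ∪ (⋃ n, G n))) := by
    intro ω _
    by_cases hD : Draw (opn ω) 0
    · exact Or.inl hD
    right
    by_cases h0c : ω 0 = true
    · exact Or.inl (Or.inl h0c)
    by_cases hec : ω e = true
    · exact Or.inl (Or.inr hec)
    right
    have h0o : (0 : S d) ∈ opn ω := by
      show ω 0 = false
      simpa using h0c
    have heo : e ∈ opn ω := by
      show ω e = false
      simpa using hec
    have hD' : FirstWins (opn ω) 0 ∨ SecondWins (opn ω) 0 := by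
      unfold Draw at hD
      tauto
    rcases hD' with h | h
    · left
      rcases ((hS d (opn ω) 0).1).1 h with h | ⟨n, hn⟩
      · exact absurd h0o h
      · exact Set.mem_iUnion.2 ⟨n, h0o, hn⟩
    · right
      obtain ⟨_, n, hn⟩ := ((hS d (opn ω) 0).2).1 h
      exact Set.mem_iUnion.2 ⟨n, h0o, heo, hn⟩
  have htot : (1 : ENNReal) ≤ Perc d p {ω | Draw (opn ω) 0} + ENNReal.ofReal ε := by
    calc (1 : ENNReal) = Perc d p Set.univ := measure_univ.symm
      _ ≤ Perc d p ({ω | Draw (opn ω) 0} ∪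
      (({ω | ω 0 = true} ∪ {ω | ω e = true}) ∪ ((⋃ n, F n) ∪ (⋃ n, G n)))) :=
          measure_mono hcov
      _ ≤ Perc d p {ω | Draw (opn ω) 0} + ((ENNReal.ofReal (ε / 4) + ENNReal.ofReal (ε / 4)) +
          (ENNReal.ofReal (ε / 4) + ENNReal.ofReal (ε / 4))) := by
          refine (measure_union_le _ _).trans (add_le_add le_rfl ?_)
          refine (measure_union_le _ _).trans (add_le_add ?_ ?_)
          · exact (measure_union_le _ _).trans (add_le_add hc0 hce)
          · exact (measure_union_le _ _).trans (add_le_add hF' hG')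
      _ = Perc d p {ω | Draw (opn ω) 0} + ENNReal.ofReal ε := by
          congr 1
          rw [← ENNReal.ofReal_add (by positivity) (by positivity),
            ← ENNReal.ofReal_add (by positivity) (by positivity)]
          congr 1; ring
  rw [ENNReal.ofReal_sub _ hε.le, ENNReal.ofReal_one]
  exact tsub_le_iff_right.2 htot

/-- All parts together. -/
theorem main (hS : St_STRAT) (hD1 : St_GD1) (hD2 : St_GD2) (hBad : St_BAD) (hB : St_BRI)
    (hA : St_AWF) :
    (∀ d : ℕ, 1 ≤ d →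
      ((∃ p : unitInterval, 0 < (p : ℝ) ∧ 0 < Perc d p {ω | Draw (opn ω) 0}) ↔ 3 ≤ d)) ∧
    (∀ d : ℕ, 1 ≤ d → d ≤ 2 → ∀ p : unitInterval, 0 < (p : ℝ) →
      Perc d p {ω | Draw (opn ω) 0} = 0) ∧
    (∀ d : ℕ, 3 ≤ d → ∀ ε : ℝ, 0 < ε → ∃ p0 : ℝ, 0 < p0 ∧ ∀ p : unitInterval, 0 < (p : ℝ) →
      (p : ℝ) ≤ p0 → ENNReal.ofReal (1 - ε) ≤ Perc d p {ω | Draw (opn ω) 0}) := by
  refine ⟨?_, low hS hA hB, high hS hD1 hD2 hBad hB⟩
  intro d hd
  constructor
  · rintro ⟨p, hp, h⟩
    by_contra hc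
    rw [low hS hA hB d hd (by omega) p hp] at h
    exact absurd h (lt_irrefl _)
  · intro h3
    obtain ⟨p0, hp0, h⟩ := high hS hD1 hD2 hBad hB d h3 (1 / 2) (by norm_num)
    have hm : 0 < min p0 1 := lt_min hp0 one_pos
    refine ⟨⟨min p0 1, hm.le, min_le_right _ _⟩, hm, ?_⟩
    refine lt_of_lt_of_le ?_ (h ⟨min p0 1, hm.le, min_le_right _ _⟩ hm (min_le_left _ _))
    rw [ENNReal.ofReal_pos]; norm_num

end Pool.Agent.W845.TR
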