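import Pool.Agent.W845.TR.Base

set_option autoImplicit false

/-!
TR-SEQ: counting sequences of small total length.
-/

namespace Pool.Agent.W845.TRSeq

open Finset
open Pool.Agent.W845.TR

lemma sum_int (th : ℝ) (a : ℤ) (N : ℕ) :
    ∑ m ∈ Icc (a - N) (a + N), Real.exp (-th * ((|a - m| : ℤ) : ℝ)) =
      1 + 2 * ∑ j ∈ range N, Real.exp (-th) ^ (j + 1) := by
  induction N with
  | zero => simp
  | succ N ih =>
    have h1 : Icc (a - ((N + 1 : ℕ) : ℤ)) (a + ((N + 1 : ℕ) : ℤ)) =
        insert (a - ((N + 1 : ℕ) : ℤ)) (insert (a + ((N + 1 : ℕ) : ℤ)) (Icc (a - N) (a + N))) := by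
      ext x
      simp only [mem_Icc, mem_insert]
      push_cast
      omega
    have h2 : a + ((N + 1 : ℕ) : ℤ) ∉ Icc (a - (N : ℤ)) (a + N) := by
      simp only [mem_Icc]; push_cast; omega
    have h3 : a - ((N + 1 : ℕ) : ℤ) ∉ insert (a + ((N + 1 : ℕ) : ℤ))
        (Icc (a - (N : ℤ)) (a + N)) := by
      simp only [mem_Icc, mem_insert]; push_cast; omega
    rw [h1, sum_insert h3, sum_insert h2, ih, sum_range_succ]
    have h4 : (|a - (a - ((N + 1 : ℕ) : ℤ))| : ℤ) = ((N + 1 : ℕ) : ℤ) := by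
      rw [sub_sub_cancel, abs_of_nonneg (by positivity)]
    have h5 : (|a - (a + ((N + 1 : ℕ) : ℤ))| : ℤ) = ((N + 1 : ℕ) : ℤ) := by
      rw [sub_add_cancel_left, abs_neg, abs_of_nonneg (by positivity)]
    rw [h4, h5]
    have h6 : Real.exp (-th * (((N + 1 : ℕ) : ℤ) : ℝ)) = Real.exp (-th) ^ (N + 1) := by
      rw [← Real.exp_nat_mul]
      congr 1
      push_cast
      ring
    rw [h6]
    ring

lemma sum_int_le {th : ℝ} (h0 : 0 < th) (h1 : th ≤ 1) (a : ℤ) (N : ℕ) :
    ∑ m ∈ Icc (a - N) (a + N), Real.exp (-th * ((|a - m| : ℤ) : ℝ)) ≤ 3 / th := by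
  rw [sum_int]
  set r := Real.exp (-th) with hr
  have hr0 : 0 < r := Real.exp_pos _
  have hr1 : r < 1 := by rw [hr, Real.exp_lt_one_iff]; linarith
  have hr2 : r * (1 + th) ≤ 1 := by
    have h2 := Real.add_one_le_exp th
    have h3 : r * Real.exp th = 1 := by rw [hr, ← Real.exp_add]; simp
    nlinarith
  have hg : (∑ j ∈ range N, r ^ (j + 1)) * (1 - r) ≤ r := by
    have h4 : ∑ j ∈ range N, r ^ (j + 1) = r * ∑ j ∈ range N, r ^ j := by
      rw [mul_sum]; exact sum_congr rfl fun j _ => by rw [pow_succ]; ring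
    have h5 := mul_neg_geom_sum r N
    have h6 : 0 ≤ r ^ N := by positivity
    rw [h4]
    nlinarith
  have hg2 : (∑ j ∈ range N, r ^ (j + 1)) * th ≤ 1 := by
    set G := ∑ j ∈ range N, r ^ (j + 1)
    have hG0 : 0 ≤ G := sum_nonneg fun j _ => by positivity
    have h7 : r * th ≤ 1 - r := by linarith
    have h8 : G * (r * th) ≤ r := (mul_le_mul_of_nonneg_left h7 hG0).trans hg
    have h9 : r * (G * th) ≤ r * 1 := by linarith
    exact le_of_mul_le_mul_left h9 hr0
  rw [le_div_iff₀ h0]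
  nlinarith

lemma sum_ball_le {d : ℕ} {th : ℝ} (h0 : 0 < th) (h1 : th ≤ 1) (z : S d) (N : ℕ) :
    ∑ y ∈ Fintype.piFinset (fun i => Icc (z i - N) (z i + N)), Real.exp (-th * (l1 z y : ℝ)) ≤
      (3 / th) ^ d := by
  have h2 : ∀ y : S d, Real.exp (-th * (l1 z y : ℝ)) =
      ∏ i, Real.exp (-th * ((|z i - y i| : ℤ) : ℝ)) := by
    intro y
    rw [← Real.exp_sum]
    congr 1
    unfold l1
    push_cast
    rw [mul_sum]
  simp only [h2]
  have h3 := prod_univ_sum (fun i => Icc (z i - (N : ℤ)) (z i + N))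
    (fun i m => Real.exp (-th * ((|z i - m| : ℤ) : ℝ)))
  rw [← h3]
  calc ∏ i, ∑ m ∈ Icc (z i - (N : ℤ)) (z i + N), Real.exp (-th * ((|z i - m| : ℤ) : ℝ))
      ≤ ∏ _i : Fin d, 3 / th := prod_le_prod
        (fun i _ => sum_nonneg fun m _ => (Real.exp_pos _).le)
        (fun i _ => sum_int_le h0 h1 (z i) N)
    _ = (3 / th) ^ d := by rw [prod_const, card_univ, Fintype.card_fin]

lemma len_nonneg {d : ℕ} (l : List (S d × Fin d)) : ∀ z, 0 ≤ len z l := by
  induction l with
  | nil => intro z; exact le_rfl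
  | cons e t ih => intro z; exact add_nonneg (l1_nonneg _ _) (ih _)

lemma claim {d : ℕ} {th : ℝ} (h0 : 0 < th) (h1 : th ≤ 1) (f : ℕ) :
    ∀ (z0 : S d) (Δ : ℝ), ∃ T : Finset (List (S d × Fin d)),
      (∀ l : List (S d × Fin d), l.length = f → (len z0 l : ℝ) ≤ Δ → l ∈ T) ∧
      (T.card : ℝ) ≤ Real.exp (th * Δ) * (d * (3 / th) ^ d) ^ f := by
  classical
  induction f with
  | zero =>
    intro z0 Δ
    by_cases hΔ : 0 ≤ Δ
    · refine ⟨{[]}, ?_, ?_⟩
      · intro l hl _
        rw [List.length_eq_zero_iff.1 hl]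
        simp
      · simp only [card_singleton, Nat.cast_one, pow_zero, mul_one]
        exact Real.one_le_exp (by positivity)
    · refine ⟨∅, ?_, ?_⟩
      · intro l hl hlen
        exfalso
        have : (0 : ℝ) ≤ (len z0 l : ℝ) := by exact_mod_cast len_nonneg l z0
        linarith
      · simp only [card_empty, Nat.cast_zero, pow_zero, mul_one]
        exact (Real.exp_pos _).le
  | succ f ih =>
    intro z0 Δ
    choose T hT1 hT2 using ih
    set N : ℕ := ⌈|Δ|⌉₊ with hN
    set Bx : Finset (S d) := Fintype.piFinset (fun i => Icc (z0 i - N) (z0 i + N)) with hBx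
    refine ⟨(Bx ×ˢ (univ : Finset (Fin d))).biUnion
      (fun e => (T e.1 (Δ - l1 z0 e.1)).image (fun t => e :: t)), ?_, ?_⟩
    · intro l hl hlen
      obtain _ | ⟨e, t⟩ := l
      · simp at hl
      · have ht : t.length = f := by simpa using hl
        have h2 : (len z0 (e :: t) : ℝ) = (l1 z0 e.1 : ℝ) + (len e.1 t : ℝ) := by
          simp [len]
        rw [h2] at hlen
        have h3 : (0 : ℝ) ≤ (len e.1 t : ℝ) := by exact_mod_cast len_nonneg t e.1
        rw [mem_biUnion]
        refine ⟨e, ?_, ?_⟩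
        · rw [mem_product]
          refine ⟨?_, mem_univ _⟩
          rw [hBx, Fintype.mem_piFinset]
          intro i
          have h4 : (l1 z0 e.1 : ℝ) ≤ N := by
            have h5 := Nat.le_ceil |Δ|
            have h6 := le_abs_self Δ
            rw [← hN] at h5
            linarith
          have h7 : l1 z0 e.1 ≤ N := by exact_mod_cast h4
          have h8 := abs_le.1 ((abs_le_l1 z0 e.1 i).trans h7)
          rw [mem_Icc]
          omega
        · rw [mem_image]
          exact ⟨t, hT1 _ _ t ht (by linarith), rfl⟩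
    · have hM : (0 : ℝ) ≤ (d * (3 / th) ^ d) ^ f := by positivity
      calc (((Bx ×ˢ (univ : Finset (Fin d))).biUnion
            (fun e => (T e.1 (Δ - l1 z0 e.1)).image (fun t => e :: t))).card : ℝ)
          ≤ ∑ e ∈ Bx ×ˢ (univ : Finset (Fin d)), ((T e.1 (Δ - l1 z0 e.1)).card : ℝ) := by
            have h2 := card_biUnion_le (s := Bx ×ˢ (univ : Finset (Fin d)))
              (t := fun e => (T e.1 (Δ - l1 z0 e.1)).image (fun t => e :: t))
            have h3 : ∑ e ∈ Bx ×ˢ (univ : Finset (Fin d)),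
                ((T e.1 (Δ - l1 z0 e.1)).image (fun t => e :: t)).card ≤
                ∑ e ∈ Bx ×ˢ (univ : Finset (Fin d)), (T e.1 (Δ - l1 z0 e.1)).card :=
              sum_le_sum fun e _ => card_image_le
            exact_mod_cast h2.trans h3
        _ ≤ ∑ e ∈ Bx ×ˢ (univ : Finset (Fin d)),
              Real.exp (th * (Δ - l1 z0 e.1)) * (d * (3 / th) ^ d) ^ f :=
            sum_le_sum fun e _ => hT2 _ _
        _ = Real.exp (th * Δ) * (d * (3 / th) ^ d) ^ f *
              (d * ∑ y ∈ Bx, Real.exp (-th * (l1 z0 y : ℝ))) := by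
            rw [sum_product]
            simp only [sum_const, card_univ, Fintype.card_fin, nsmul_eq_mul]
            rw [mul_sum, mul_sum]
            refine sum_congr rfl fun y _ => ?_
            have : Real.exp (th * (Δ - l1 z0 y)) =
                Real.exp (th * Δ) * Real.exp (-th * (l1 z0 y : ℝ)) := by
              rw [← Real.exp_add]; congr 1; ring
            rw [this]
            ring
        _ ≤ Real.exp (th * Δ) * (d * (3 / th) ^ d) ^ f * (d * (3 / th) ^ d) := by
            apply mul_le_mul_of_nonneg_left _ (mul_nonneg (Real.exp_pos _).le hM)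
            exact mul_le_mul_of_nonneg_left (sum_ball_le h0 h1 z0 N) (Nat.cast_nonneg d)
        _ = Real.exp (th * Δ) * (d * (3 / th) ^ d) ^ (f + 1) := by rw [pow_succ]; ring

theorem seq : St_SEQ := by
  intro d
  refine ⟨3 * d + 1, by positivity, ?_⟩
  intro k f D z0 hD
  have h2k : (0 : ℝ) < 2 ^ k := by positivity
  obtain ⟨T, hT1, hT2⟩ := claim (d := d) (th := 1 / 2 ^ k) (by positivity)
    (by rw [div_le_one h2k]; exact one_le_pow₀ (by norm_num)) f z0 (D / 2 ^ k)
  refine ⟨T, ?_, ?_⟩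
  · intro l hl hlen
    apply hT1 l hl
    rw [le_div_iff₀ h2k]
    linarith
  · refine hT2.trans ?_
    rw [Real.exp_add]
    have h3 : (1 / 2 ^ k * (D / 2 ^ k) : ℝ) = D / 4 ^ k := by
      have : (4 : ℝ) ^ k = 2 ^ k * 2 ^ k := by rw [← mul_pow]; norm_num
      rw [this]
      field_simp
    rw [h3]
    apply mul_le_mul_of_nonneg_left _ (Real.exp_pos _).le
    have h4 : ((3 * d + 1 : ℝ) * (k + 1) * f) = f * ((3 * d + 1) * (k + 1)) := by ring
    rw [h4, Real.exp_nat_mul]
    apply pow_le_pow_left₀ (by positivity)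
    have h5 : (d : ℝ) ≤ Real.exp d := by
      have := Real.add_one_le_exp (d : ℝ)
      linarith
    have h6 : (3 / (1 / 2 ^ k) : ℝ) ≤ Real.exp (2 * (k + 1)) := by
      have h7 : (3 / (1 / 2 ^ k) : ℝ) = 3 * 2 ^ k := by field_simp
      rw [h7]
      have h8 : (2 : ℝ) ≤ Real.exp 1 := by
        have := Real.add_one_le_exp (1 : ℝ)
        linarith
      have h9 : (3 : ℝ) ≤ Real.exp 2 := by
        have := Real.add_one_le_exp (2 : ℝ)
        linarith
      have h10 : Real.exp (2 * (k + 1)) = Real.exp 2 * Real.exp 1 ^ k * Real.exp 1 ^ k := by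
        rw [← Real.exp_nat_mul, ← Real.exp_add, ← Real.exp_add]
        congr 1
        ring
      rw [h10]
      have h11 : (2 : ℝ) ^ k ≤ Real.exp 1 ^ k := pow_le_pow_left₀ (by norm_num) h8 k
      have h12 : (1 : ℝ) ≤ Real.exp 1 ^ k := one_le_pow₀ (by linarith)
      calc (3 : ℝ) * 2 ^ k ≤ Real.exp 2 * Real.exp 1 ^ k :=
            mul_le_mul h9 h11 (by positivity) (by positivity)
        _ ≤ Real.exp 2 * Real.exp 1 ^ k * Real.exp 1 ^ k :=
            le_mul_of_one_le_right (by positivity) h12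
    calc (d * (3 / (1 / 2 ^ k)) ^ d : ℝ) ≤ Real.exp d * (Real.exp (2 * (k + 1))) ^ d := by
          apply mul_le_mul h5 (pow_le_pow_left₀ (by positivity) h6 d) (by positivity)
            (by positivity)
      _ = Real.exp (d + d * (2 * (k + 1))) := by
          rw [← Real.exp_nat_mul, ← Real.exp_add]
      _ ≤ Real.exp ((3 * d + 1) * (k + 1)) := by
          apply Real.exp_le_exp.2
          have hd : (0 : ℝ) ≤ d := Nat.cast_nonneg d
          have hk : (0 : ℝ) ≤ k := Nat.cast_nonneg k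
          nlinarith [mul_nonneg hd hk]

end Pool.Agent.W845.TRSeq

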