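import Pool.Agent.W845.TR.Ex

set_option autoImplicit false
open scoped BigOperators
open MeasureTheory

/-!
Project TR (MP_985e29_pr): basic lemmas on the lattice and the game.
-/

namespace Pool.Agent.W845.TR

variable {d : ℕ}

/-! ## The lattice -/

theorem l1_comm (x y : S d) : l1 x y = l1 y x := by
  unfold l1; exact Finset.sum_congr rfl (fun i _ => abs_sub_comm _ _)

theorem l1_nonneg (x y : S d) : 0 ≤ l1 x y := by
  unfold l1; exact Finset.sum_nonneg (fun i _ => abs_nonneg _)

theorem l1_self (x : S d) : l1 x x = 0 := by simp [l1]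

theorem l1_tri (x y z : S d) : l1 x z ≤ l1 x y + l1 y z := by
  unfold l1; rw [← Finset.sum_add_distrib]
  exact Finset.sum_le_sum (fun i _ => abs_sub_le _ _ _)

theorem l1_add (x y a : S d) : l1 (x + a) (y + a) = l1 x y := by
  unfold l1; exact Finset.sum_congr rfl (fun i _ => by simp)

theorem abs_le_l1 (x y : S d) (i : Fin d) : |x i - y i| ≤ l1 x y := by
  unfold l1
  exact Finset.single_le_sum (f := fun i => |x i - y i|) (fun i _ => abs_nonneg _)
    (Finset.mem_univ i)

theorem adj_iff (x y : S d) : adj x y ↔ l1 x y = 1 := Iff.rfl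

theorem adj_symm {x y : S d} (h : adj x y) : adj y x := by
  rw [adj_iff, l1_comm]; exact h

theorem adj_ne {x y : S d} (h : adj x y) : x ≠ y := by
  rintro rfl; rw [adj_iff, l1_self] at h; exact absurd h (by norm_num)

theorem l1_add_ue (x : S d) (j : Fin d) : l1 x (x + ue j) = 1 := by
  unfold l1 ue
  rw [Finset.sum_eq_single j]
  · simp
  · intro i _ hi; simp [Pi.single_apply, hi]
  · intro h; exact absurd (Finset.mem_univ j) h

theorem adj_add_ue (x : S d) (j : Fin d) : adj x (x + ue j) := l1_add_ue x j

theorem adj_sub_ue (x : S d) (j : Fin d) : adj x (x - ue j) := by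
  have := adj_symm (adj_add_ue (x - ue j) j)
  simpa using this

theorem adj_cases {x y : S d} (h : adj x y) : ∃ j, y = x + ue j ∨ y = x - ue j := by
  unfold adj at h
  have hex : ∃ j, x j ≠ y j := by
    by_contra hc
    push_neg at hc
    have : ∑ i, |x i - y i| = 0 := Finset.sum_eq_zero (fun i _ => by rw [hc i]; simp)
    rw [this] at h; exact absurd h (by norm_num)
  obtain ⟨j, hj⟩ := hex
  have h1 : 1 ≤ |x j - y j| := Int.one_le_abs (sub_ne_zero.2 hj)
  rw [← Finset.add_sum_erase _ _ (Finset.mem_univ j)] at h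
  have h2 : 0 ≤ ∑ i ∈ Finset.univ.erase j, |x i - y i| :=
    Finset.sum_nonneg (fun i _ => abs_nonneg _)
  have h3 : ∑ i ∈ Finset.univ.erase j, |x i - y i| = 0 := by omega
  have h4 : |x j - y j| = 1 := by omega
  have h5 := (Finset.sum_eq_zero_iff_of_nonneg (fun i _ => abs_nonneg (x i - y i))).1 h3
  refine ⟨j, ?_⟩
  rcases abs_eq (by norm_num : (0:ℤ) ≤ 1) |>.1 h4 with h6 | h6
  · right
    funext i
    by_cases hi : i = j
    · subst hi; simp [ue]; omega
    · have := h5 i (Finset.mem_erase.2 ⟨hi, Finset.mem_univ _⟩)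
      have := abs_eq_zero.1 this
      simp [ue, Pi.single_apply, hi]; omega
  · left
    funext i
    by_cases hi : i = j
    · subst hi; simp [ue]; omega
    · have := h5 i (Finset.mem_erase.2 ⟨hi, Finset.mem_univ _⟩)
      have := abs_eq_zero.1 this
      simp [ue, Pi.single_apply, hi]; omega

theorem mem_nb {x y : S d} : y ∈ nb x ↔ adj x y := by
  constructor
  · intro h
    unfold nb at h
    rcases Finset.mem_union.1 h with h | h
    · obtain ⟨j, _, rfl⟩ := Finset.mem_image.1 h; exact adj_add_ue x j
    · obtain ⟨j, _, rfl⟩ := Finset.mem_image.1 h; exact adj_sub_ue x j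
  · intro h
    obtain ⟨j, rfl | rfl⟩ := adj_cases h
    · exact Finset.mem_union_left _ (Finset.mem_image_of_mem _ (Finset.mem_univ j))
    · exact Finset.mem_union_right _ (Finset.mem_image.2 ⟨j, Finset.mem_univ j, rfl⟩)

theorem par_add_ue (x : S d) (j : Fin d) : par (x + ue j) = !par x := by
  unfold par
  have : ∑ i, (x + ue j) i = ∑ i, x i + 1 := by
    simp [ue, Finset.sum_add_distrib]
  rw [this]
  by_cases h : Even (∑ i, x i)
  · have h2 : ¬ Even (∑ i, x i + 1) := by rw [Int.even_add_one]; simpa using h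
    simp [h, h2]
  · have h2 : Even (∑ i, x i + 1) := by rw [Int.even_add_one]; exact h
    simp [h, h2]

theorem par_sub_ue (x : S d) (j : Fin d) : par (x - ue j) = !par x := by
  have := par_add_ue (x - ue j) j
  rw [sub_add_cancel] at this
  rw [this]; simp

theorem par_adj {x y : S d} (h : adj x y) : par y = !par x := by
  obtain ⟨j, rfl | rfl⟩ := adj_cases h
  · exact par_add_ue x j
  · exact par_sub_ue x j

theorem mem_box {N : ℕ} {x : S d} : x ∈ box d N ↔ ∀ i, -(N : ℤ) ≤ x i ∧ x i ≤ N := by
  unfold box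
  rw [Finset.mem_Icc]
  constructor
  · rintro ⟨h1, h2⟩ i; exact ⟨h1 i, h2 i⟩
  · intro h; exact ⟨fun i => (h i).1, fun i => (h i).2⟩

theorem box_mono {M N : ℕ} (h : M ≤ N) : box d M ⊆ box d N := by
  intro x hx
  rw [mem_box] at *
  intro i
  have h1 : (M : ℤ) ≤ N := by exact_mod_cast h
  have := hx i
  constructor <;> omega

theorem ball_box {M N r : ℕ} (h : M + r ≤ N) {x y : S d} (hx : x ∈ box d M)
    (hy : l1 x y ≤ r) : y ∈ box d N := by
  rw [mem_box] at *
  intro i
  have h1 := hx i
  have h2 := (abs_le.1 ((abs_le_l1 x y i).trans hy))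
  have h3 : (M : ℤ) + r ≤ N := by exact_mod_cast h
  constructor <;> omega

theorem rayP_box (N : ℕ) : RayP (box d N) := by
  intro x hx
  rw [mem_box] at hx
  push_neg at hx
  obtain ⟨i, hi⟩ := hx
  by_cases h : -(N : ℤ) ≤ x i
  · refine ⟨i, Or.inl (fun t ht => ?_)⟩
    have h1 := hi h
    have h2 := (mem_box.1 ht i).2
    simp [ue] at h2
    have : (0 : ℤ) ≤ t := by positivity
    omega
  · refine ⟨i, Or.inr (fun t ht => ?_)⟩
    have h2 := (mem_box.1 ht i).1
    simp [ue] at h2
    have : (0 : ℤ) ≤ t := by positivity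
    omega

/-! ## The game -/

theorem W_mono {O : Set (S d)} {m n : ℕ} (h : m ≤ n) {x : S d} {A : Finset (S d)}
    (hW : W O m x A) : W O n x A := by
  induction m generalizing n x A with
  | zero => exact absurd hW (by simp [W])
  | succ m ih =>
    obtain ⟨n, rfl⟩ : ∃ n', n = n' + 1 := ⟨n - 1, by omega⟩
    obtain ⟨y, hy, h2⟩ := hW
    exact ⟨y, hy, fun z hz => ih (by omega) (h2 z hz)⟩

/-- The value depends only on the board near the vertex. -/
theorem W_local {O O' : Set (S d)} {n : ℕ} {x : S d} {A : Finset (S d)}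
    (h : ∀ y, l1 x y ≤ 2 * n → (y ∈ O ↔ y ∈ O')) (hW : W O n x A) : W O' n x A := by
  induction n generalizing x A with
  | zero => exact hW
  | succ n ih =>
    obtain ⟨y, hy, h2⟩ := hW
    have hxy : l1 x y = 1 := hy.1
    refine ⟨y, ⟨hy.1, (h y (by rw [hxy]; push_cast; omega)).1 hy.2.1, hy.2.2⟩,
      fun z hz => ?_⟩
    have hyz : l1 y z = 1 := hz.1
    have hxz : l1 x z ≤ 2 := by have := l1_tri x y z; omega
    refine ih ?_ (h2 z ⟨hz.1, (h z (by push_cast; omega)).2 hz.2.1, hz.2.2⟩)
    intro w hw
    exact h w (by have := l1_tri x z w; push_cast; omega)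

theorem W_local_iff {O O' : Set (S d)} {n : ℕ} {x : S d} {A : Finset (S d)}
    (h : ∀ y, l1 x y ≤ 2 * n → (y ∈ O ↔ y ∈ O')) : W O n x A ↔ W O' n x A :=
  ⟨W_local h, W_local (fun y hy => (h y hy).symm)⟩

/-- Not both players can win. -/
theorem W_excl {O : Set (S d)} : ∀ (k n m : ℕ), n + m ≤ k → ∀ (x : S d) (A : Finset (S d)),
    W O n x A → (∀ y, Legal O x A y → W O m y (insert y A)) → False := by
  intro k
  induction k with
  | zero =>
    intro n m h x A h1 _
    have : n = 0 := by omega
    subst this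
    exact h1
  | succ k ih =>
    intro n m h x A h1 h2
    cases n with
    | zero => exact h1
    | succ n =>
      obtain ⟨y, hy, h3⟩ := h1
      have h4 := h2 y hy
      exact ih m n (by omega) y (insert y A) h4 h3

/-- Visited vertices can be removed from the board. -/
theorem W_erase {O : Set (S d)} {v : S d} {n : ℕ} {x : S d} {A : Finset (S d)} :
    W (O \ {v}) n x A ↔ W O n x (insert v A) := by
  induction n generalizing x A with
  | zero => exact Iff.rfl
  | succ n ih =>
    have key : ∀ (x y : S d) (A : Finset (S d)),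
        Legal (O \ {v}) x A y ↔ Legal O x (insert v A) y := by
      intro x y A
      unfold Legal
      simp only [Set.mem_sdiff, Set.mem_singleton_iff, Finset.mem_insert]
      tauto
    constructor
    · rintro ⟨y, hy, h2⟩
      refine ⟨y, (key _ _ _).1 hy, fun z hz => ?_⟩
      rw [Finset.insert_comm] at hz
      have := h2 z ((key _ _ _).2 hz)
      rw [ih] at this
      rw [Finset.insert_comm y v, Finset.insert_comm z v]; exact this
    · rintro ⟨y, hy, h2⟩
      refine ⟨y, (key _ _ _).2 hy, fun z hz => ?_⟩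
      rw [ih]
      have := h2 z (by rw [Finset.insert_comm]; exact (key _ _ _).1 hz)
      rw [Finset.insert_comm y v, Finset.insert_comm z v] at this; exact this

/-- Translation invariance. -/
theorem W_trans {O : Set (S d)} (a : S d) {n : ℕ} {x : S d} {A : Finset (S d)} :
    W {y | y - a ∈ O} n (x + a) (A.image (fun y => y + a)) ↔ W O n x A := by
  induction n generalizing x A with
  | zero => exact Iff.rfl
  | succ n ih =>
    have key : ∀ (x y : S d) (A : Finset (S d)),
        Legal {y | y - a ∈ O} (x + a) (A.image (fun y => y + a)) (y + a) ↔ Legal O x A y := by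
      intro x y A
      unfold Legal
      have h1 : adj (x + a) (y + a) ↔ adj x y := by rw [adj_iff, adj_iff, l1_add]
      have h2 : y + a ∈ A.image (fun y => y + a) ↔ y ∈ A := by
        simp
      simp only [h1, h2, Set.mem_ofPred_eq, add_sub_cancel_right]
    constructor
    · rintro ⟨y, hy, h2⟩
      have ey : y = (y - a) + a := by simp
      rw [ey] at hy h2
      refine ⟨y - a, (key _ _ _).1 hy, fun z hz => ?_⟩
      rw [← Finset.image_insert (f := fun y => y + a)] at h2
      have := h2 (z + a) ((key _ _ _).2 hz)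
      rw [← Finset.image_insert (f := fun y => y + a), ih] at this
      exact this
    · rintro ⟨y, hy, h2⟩
      refine ⟨y + a, (key _ _ _).2 hy, fun z hz => ?_⟩
      have ez : z = (z - a) + a := by simp
      rw [← Finset.image_insert (f := fun y => y + a)] at hz ⊢
      rw [ez] at hz ⊢
      rw [← Finset.image_insert (f := fun y => y + a), ih]
      exact h2 (z - a) ((key _ _ _).1 hz)

/-! ## Independent sets -/

theorem indep_card_le {H I : Finset (S d)} (h : I ⊆ H) (hI : Indep I) : I.card ≤ alpha H := by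
  unfold alpha
  exact Finset.le_sup (f := Finset.card) (Finset.mem_filter.2 ⟨Finset.mem_powerset.2 h, hI⟩)

theorem exists_maxInd (H : Finset (S d)) : ∃ I, MaxInd H I := by
  have hne : (H.powerset.filter Indep).Nonempty :=
    ⟨∅, Finset.mem_filter.2 ⟨Finset.mem_powerset.2 (Finset.empty_subset _), by
      intro x hx; exact absurd hx (Finset.notMem_empty _)⟩⟩
  obtain ⟨I, hI, h2⟩ := Finset.exists_mem_eq_sup _ hne Finset.card
  rw [Finset.mem_filter, Finset.mem_powerset] at hI
  exact ⟨I, hI.1, hI.2, h2.symm⟩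

theorem Indep.subset {I J : Finset (S d)} (h : J ⊆ I) (hI : Indep I) : Indep J :=
  fun x hx y hy => hI x (h hx) y (h hy)

theorem alpha_mono {H H' : Finset (S d)} (h : H ⊆ H') : alpha H ≤ alpha H' := by
  obtain ⟨I, h1, h2, h3⟩ := exists_maxInd H
  rw [← h3]; exact indep_card_le (h1.trans h) h2

/-- Removing a vertex decreases `alpha` by at most one. -/
theorem alpha_erase (H : Finset (S d)) (x : S d) :
    alpha (H.erase x) ≤ alpha H ∧ alpha H ≤ alpha (H.erase x) + 1 := by
  refine ⟨alpha_mono (Finset.erase_subset _ _), ?_⟩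
  obtain ⟨I, h1, h2, h3⟩ := exists_maxInd H
  have h4 := indep_card_le (Finset.erase_subset_erase x h1) (h2.subset (Finset.erase_subset x I))
  have h5 := Finset.pred_card_le_card_erase (s := I) (a := x)
  omega

/-- `x` is in all maximum independent sets iff removing it decreases `alpha`. -/
theorem forall_mem_iff (H : Finset (S d)) (x : S d) :
    (∀ I, MaxInd H I → x ∈ I) ↔ alpha H = alpha (H.erase x) + 1 := by
  constructor
  · intro h
    by_contra hc
    have h1 := alpha_erase H x
    have h2 : alpha H = alpha (H.erase x) := by omega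
    obtain ⟨I, h3, h4, h5⟩ := exists_maxInd (H.erase x)
    have := h I ⟨h3.trans (Finset.erase_subset _ _), h4, by omega⟩
    exact absurd (h3 this) (by simp)
  · intro h I hI
    by_contra hc
    have : I ⊆ H.erase x := fun y hy => Finset.mem_erase.2 ⟨fun e => hc (e ▸ hy), hI.1 hy⟩
    have h2 := indep_card_le this hI.2.1
    have := hI.2.2
    omega

theorem mem_bd {Lam : Finset (S d)} {b : Bool} {O : Set (S d)} {y : S d} :
    y ∈ bd Lam b O ↔ y ∈ Lam ∧ (par y = b ∨ nb y ⊆ Lam) ∧ y ∈ O := by
  classical
  unfold bd; rw [Finset.mem_filter]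

/-- Changing the state of one vertex changes `al` by at most one. -/
theorem al_insert_erase (Lam : Finset (S d)) (b : Bool) (A : Finset (S d)) (x : S d) :
    al Lam b (insert x A) ≤ al Lam b (A.erase x) ∧
    al Lam b (A.erase x) ≤ al Lam b (insert x A) + 1 := by
  unfold al
  have e : bd Lam b (((insert x A : Finset (S d)) : Set (S d))ᶜ) =
      (bd Lam b (((A.erase x : Finset (S d)) : Set (S d))ᶜ)).erase x := by
    ext y
    simp only [mem_bd, Finset.mem_erase, Set.mem_compl_iff, Finset.mem_coe, Finset.mem_insert]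
    tauto
  rw [e]
  exact alpha_erase _ x

end Pool.Agent.W845.TR
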