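import Mathlib

set_option autoImplicit false
open scoped BigOperators
open MeasureTheory

/-!
Project TR (MP_985e29_pr, the game Trap on site percolation of `Z^d`): definitions.
-/

namespace Pool.Agent.W845.TR

/-- The vertices of the lattice `Z^d`. -/
abbrev S (d : ℕ) := Fin d → ℤ

variable {d : ℕ}

/-- Nearest neighbour adjacency of `Z^d`. -/
def adj (x y : S d) : Prop := ∑ i, |x i - y i| = 1

instance adjDec : DecidableRel (adj (d := d)) := fun x y => by unfold adj; infer_instance

/-- Legal moves: from the current vertex `x`, when `A` is the set of visited vertices, the token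
can be moved to `y` if `y` is an open neighbour of `x` which was not visited. -/
def Legal (O : Set (S d)) (x : S d) (A : Finset (S d)) (y : S d) : Prop :=
  adj x y ∧ y ∈ O ∧ y ∉ A

/-- A strategy assigns a legal move to every position (current vertex, visited vertices) at which
one exists. -/
def IsStrategy (O : Set (S d)) (σ : S d → Finset (S d) → S d) : Prop :=
  ∀ x A, (∃ y, Legal O x A y) → Legal O x A (σ x A)

/-- The position after `n` moves from the initial vertex `v`, when the first player uses `σ` and
the second player uses `τ` (meaningful as long as nobody is stuck). -/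
def play (σ τ : S d → Finset (S d) → S d) (v : S d) : ℕ → S d × Finset (S d)
  | 0 => (v, {v})
  | n + 1 =>
    ((if n % 2 = 0 then σ else τ) (play σ τ v n).1 (play σ τ v n).2,
      insert ((if n % 2 = 0 then σ else τ) (play σ τ v n).1 (play σ τ v n).2) (play σ τ v n).2)

/-- There is no legal move at the position `q`. -/
def Stuck (O : Set (S d)) (q : S d × Finset (S d)) : Prop := ∀ y, ¬ Legal O q.1 q.2 y

/-- The game from `v` on the board `O` (the set of open vertices) is a win for the first player:
`v` is closed, or the first player has a strategy such that against every strategy of the second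
player the second player gets stuck (a player who has to move after `n` moves is the second player
iff `n` is odd). -/
def FirstWins (O : Set (S d)) (v : S d) : Prop :=
  v ∉ O ∨ ∃ σ, IsStrategy O σ ∧ ∀ τ, IsStrategy O τ →
    ∃ n, n % 2 = 1 ∧ Stuck O (play σ τ v n) ∧ ∀ m < n, ¬ Stuck O (play σ τ v m)

/-- The game from `v` on the board `O` is a win for the second player. -/
def SecondWins (O : Set (S d)) (v : S d) : Prop :=
  v ∈ O ∧ ∃ τ, IsStrategy O τ ∧ ∀ σ, IsStrategy O σ →
    ∃ n, n % 2 = 0 ∧ Stuck O (play σ τ v n) ∧ ∀ m < n, ¬ Stuck O (play σ τ v m)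

/-- The game is a draw: neither player has a winning strategy. -/
def Draw (O : Set (S d)) (v : S d) : Prop := ¬ FirstWins O v ∧ ¬ SecondWins O v

/-- The law on `Bool` giving probability `p` to `true`. -/
noncomputable def bern (p : unitInterval) : Measure Bool :=
  ENNReal.ofReal (p : ℝ) • Measure.dirac true + ENNReal.ofReal (1 - (p : ℝ)) • Measure.dirac false

instance bern_prob (p : unitInterval) : IsProbabilityMeasure (bern p) := by
  constructor
  unfold bern
  simp only [Measure.coe_add, Measure.coe_smul, Pi.add_apply, Pi.smul_apply, smul_eq_mul,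
    measure_univ, mul_one]
  rw [← ENNReal.ofReal_add p.2.1 (by linarith [p.2.2])]
  simp

/-- Site percolation: every vertex is closed (value `true`) with probability `p`, independently. -/
noncomputable def Perc (d : ℕ) (p : unitInterval) : Measure (S d → Bool) :=
  Measure.infinitePi (fun _ : S d => bern p)

instance perc_prob (d : ℕ) (p : unitInterval) : IsProbabilityMeasure (Perc d p) := by
  unfold Perc; infer_instance

/-- The set of open vertices. -/
def opn (ω : S d → Bool) : Set (S d) := {x | ω x = false}

/-! ## Auxiliary definitions -/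

/-- Unit vectors. -/
def ue (j : Fin d) : S d := Pi.single j 1

/-- The neighbours of `x`. -/
def nb (x : S d) : Finset (S d) :=
  Finset.univ.image (fun j => x + ue j) ∪ Finset.univ.image (fun j => x - ue j)

/-- The parity class. -/
def par (x : S d) : Bool := decide (Even (∑ i, x i))

/-- Distance. -/
def l1 (x y : S d) : ℤ := ∑ i, |x i - y i|

/-- Boxes. -/
noncomputable def box (d : ℕ) (N : ℕ) : Finset (S d) := Finset.Icc (fun _ => -(N : ℤ)) (fun _ => (N : ℤ))

/-- The player who has to move at the position `(x, A)` can win in at most `n` rounds. -/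
def W (O : Set (S d)) : ℕ → S d → Finset (S d) → Prop
  | 0, _, _ => False
  | n + 1, x, A => ∃ y, Legal O x A y ∧
      ∀ z, Legal O y (insert y A) z → W O n z (insert z (insert y A))

/-- Independent sets. -/
def Indep (I : Finset (S d)) : Prop := ∀ x ∈ I, ∀ y ∈ I, ¬ adj x y

instance indepDec (I : Finset (S d)) : Decidable (Indep I) := by unfold Indep; infer_instance

/-- Largest size of an independent set. -/
def alpha (H : Finset (S d)) : ℕ := (H.powerset.filter Indep).sup Finset.card

/-- `I` is a maximum independent set of `H`. -/
def MaxInd (H I : Finset (S d)) : Prop := I ⊆ H ∧ Indep I ∧ I.card = alpha H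

open Classical in
/-- The finite board in `Lam`, where vertices of the parity class `b` may be everywhere and the
vertices of the other class only in the interior. -/
noncomputable def bd (Lam : Finset (S d)) (b : Bool) (O : Set (S d)) : Finset (S d) :=
  Lam.filter (fun y => (par y = b ∨ nb y ⊆ Lam) ∧ y ∈ O)

/-- Maximum independent sets of the finite board with closed set `A`. -/
noncomputable def al (Lam : Finset (S d)) (b : Bool) (A : Finset (S d)) : ℕ :=
  alpha (bd Lam b ((A : Set (S d))ᶜ))

/-- The difference of the two boundary conditions. -/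
noncomputable def FF (Lam : Finset (S d)) (A : Finset (S d)) : ℤ :=
  (al Lam true A : ℤ) - (al Lam false A : ℤ)

/-- The sign of a parity class. -/
def sg (x : S d) : ℤ := if par x = true then 1 else -1

/-- When `x` is made open, nobody can win from `x` in `r` rounds; `A` is the closed set. -/
def Und (r : ℕ) (x : S d) (A : Finset (S d)) : Prop :=
  ¬ W (((A.erase x : Finset (S d)) : Set (S d))ᶜ) r x {x} ∧
  ¬ ∀ y, Legal (((A.erase x : Finset (S d)) : Set (S d))ᶜ) x {x} y →
      W (((A.erase x : Finset (S d)) : Set (S d))ᶜ) r y {y, x}

/-- The weight of the closed set `A` inside `B`, when `x` is closed with probability `q x`. -/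
def wt (q : S d → ℝ) (B A : Finset (S d)) : ℝ := ∏ x ∈ B, if x ∈ A then q x else 1 - q x

/-- Expectation of a function of the closed set inside the finite set `B`. -/
def Ex (q : S d → ℝ) (B : Finset (S d)) (f : Finset (S d) → ℝ) : ℝ :=
  ∑ A ∈ B.powerset, wt q B A * f A

open Classical in
/-- Probability of an event. -/
noncomputable def Pr (q : S d → ℝ) (B : Finset (S d)) (E : Finset (S d) → Prop) : ℝ :=
  Ex q B (fun A => if E A then 1 else 0)

/-! ### Contours -/

/-- The boundary of `W`: the pairs `(x, j)` such that exactly one of `x`, `x + e_j` is in `W`. -/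
def eb (W : Finset (S d)) : Finset (S d × Fin d) :=
  (((W ∪ W.biUnion nb) ×ˢ (Finset.univ : Finset (Fin d)))).filter
    (fun e => ¬ (e.1 ∈ W ↔ e.1 + ue e.2 ∈ W))

/-- The four edges of a unit square. -/
def sq (x : S d) (i j : Fin d) : Finset (S d × Fin d) :=
  {(x, i), (x + ue j, i), (x, j), (x + ue i, j)}

/-- Two edges in a common unit square. -/
def sqAdj (e f : S d × Fin d) : Prop := ∃ x i j, i ≠ j ∧ e ∈ sq x i j ∧ f ∈ sq x i j

/-- Connected sets of edges. -/
def SqConn (E : Finset (S d × Fin d)) : Prop :=
  ∀ e ∈ E, ∀ f ∈ E, Relation.ReflTransGen (fun a b => a ∈ E ∧ b ∈ E ∧ sqAdj a b) e f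

/-- The right ends of the segments of `W` in direction `j`. -/
def rt (W : Finset (S d)) (j : Fin d) : Finset (S d) := W.filter (fun y => y + ue j ∉ W)

/-- Permutations shifting `W` in direction `j`. -/
def Shf (W : Finset (S d)) (j : Fin d) (π : Equiv.Perm (S d)) : Prop :=
  (∀ y ∈ W, y + ue j ∈ W → π y = y + ue j) ∧ (∀ y, y ∉ W → π y = y) ∧ (∀ y ∈ W, π y ∈ W)

/-- Every point outside `Lam` can escape along a ray. -/
def RayP (Lam : Finset (S d)) : Prop :=
  ∀ x, x ∉ Lam → ∃ j : Fin d, (∀ t : ℕ, x + (t : ℤ) • ue j ∉ Lam) ∨
    (∀ t : ℕ, x - (t : ℤ) • ue j ∉ Lam)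

/-- The cube with index `z` at scale `k`. -/
noncomputable def cub (k : ℕ) (z : S d) : Finset (S d) :=
  Finset.Icc (fun i => 2 ^ k * z i) (fun i => 2 ^ k * z i + (2 ^ k - 1))

/-- The index of the cube containing `x`. -/
def cidx (k : ℕ) (x : S d) : S d := fun i => x i / 2 ^ k

/-- The indices of the cubes in which `W` has the majority. -/
noncomputable def cgi (k : ℕ) (W : Finset (S d)) : Finset (S d) :=
  (W.image (cidx k)).filter (fun z => 2 ^ (k * d) < 2 * (W ∩ cub k z).card)

/-- The coarse grained set. -/
noncomputable def cg (k : ℕ) (W : Finset (S d)) : Finset (S d) := (cgi k W).biUnion (cub k)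

end Pool.Agent.W845.TR
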