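import Pool.Agent.W845.TR.Stmts

set_option autoImplicit false
open scoped BigOperators
open MeasureTheory

/-!
Project TR (MP_985e29_pr): tools for finite product measures.
-/

namespace Pool.Agent.W845.TR

variable {d : ℕ}

theorem Ex_add (q : S d → ℝ) (B : Finset (S d)) (f g : Finset (S d) → ℝ) :
    Ex q B (fun A => f A + g A) = Ex q B f + Ex q B g := by
  unfold Ex; rw [← Finset.sum_add_distrib]; exact Finset.sum_congr rfl (fun A _ => by ring)

theorem Ex_sub (q : S d → ℝ) (B : Finset (S d)) (f g : Finset (S d) → ℝ) :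
    Ex q B (fun A => f A - g A) = Ex q B f - Ex q B g := by
  unfold Ex; rw [← Finset.sum_sub_distrib]; exact Finset.sum_congr rfl (fun A _ => by ring)

theorem Ex_mul_left (q : S d → ℝ) (B : Finset (S d)) (c : ℝ) (f : Finset (S d) → ℝ) :
    Ex q B (fun A => c * f A) = c * Ex q B f := by
  unfold Ex; rw [Finset.mul_sum]; exact Finset.sum_congr rfl (fun A _ => by ring)

theorem Ex_sum {ι : Type*} (q : S d → ℝ) (B : Finset (S d)) (s : Finset ι)
    (f : ι → Finset (S d) → ℝ) :
    Ex q B (fun A => ∑ i ∈ s, f i A) = ∑ i ∈ s, Ex q B (f i) := by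
  unfold Ex; rw [Finset.sum_comm]
  exact Finset.sum_congr rfl (fun A _ => by rw [Finset.mul_sum])

theorem Ex_congr (q : S d → ℝ) (B : Finset (S d)) (f g : Finset (S d) → ℝ)
    (h : ∀ A ⊆ B, f A = g A) : Ex q B f = Ex q B g := by
  unfold Ex
  exact Finset.sum_congr rfl (fun A hA => by rw [h A (Finset.mem_powerset.1 hA)])

theorem wt_nonneg (q : S d → ℝ) (B A : Finset (S d)) (h : ∀ x ∈ B, 0 ≤ q x ∧ q x ≤ 1) :
    0 ≤ wt q B A := by
  unfold wt
  refine Finset.prod_nonneg (fun x hx => ?_)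
  have := h x hx
  split_ifs <;> linarith

theorem Ex_mono (q : S d → ℝ) (B : Finset (S d)) (f g : Finset (S d) → ℝ)
    (hq : ∀ x ∈ B, 0 ≤ q x ∧ q x ≤ 1) (h : ∀ A ⊆ B, f A ≤ g A) : Ex q B f ≤ Ex q B g := by
  unfold Ex
  exact Finset.sum_le_sum (fun A hA => mul_le_mul_of_nonneg_left
    (h A (Finset.mem_powerset.1 hA)) (wt_nonneg q B A hq))

theorem Ex_nonneg (q : S d → ℝ) (B : Finset (S d)) (f : Finset (S d) → ℝ)
    (hq : ∀ x ∈ B, 0 ≤ q x ∧ q x ≤ 1) (h : ∀ A ⊆ B, 0 ≤ f A) : 0 ≤ Ex q B f := by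
  unfold Ex
  exact Finset.sum_nonneg (fun A hA => mul_nonneg (wt_nonneg q B A hq)
    (h A (Finset.mem_powerset.1 hA)))

theorem Ex_empty (q : S d → ℝ) (f : Finset (S d) → ℝ) : Ex q ∅ f = f ∅ := by
  simp [Ex, wt]

theorem wt_congr (q : S d → ℝ) (B A A' : Finset (S d)) (h : ∀ x ∈ B, (x ∈ A ↔ x ∈ A')) :
    wt q B A = wt q B A' := by
  unfold wt
  refine Finset.prod_congr rfl (fun x hx => ?_)
  by_cases h1 : x ∈ A
  · rw [if_pos h1, if_pos ((h x hx).1 h1)]
  · rw [if_neg h1, if_neg (fun h2 => h1 ((h x hx).2 h2))]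

theorem Ex_insert (q : S d → ℝ) (B : Finset (S d)) (x : S d) (hx : x ∉ B)
    (f : Finset (S d) → ℝ) :
    Ex q (insert x B) f = q x * Ex q B (fun A => f (insert x A)) + (1 - q x) * Ex q B f := by
  unfold Ex
  rw [Finset.sum_powerset_insert hx, add_comm, Finset.mul_sum, Finset.mul_sum]
  congr 1
  · refine Finset.sum_congr rfl (fun A hA => ?_)
    have hxA : x ∉ A := fun h => hx (Finset.mem_powerset.1 hA h)
    have : wt q (insert x B) (insert x A) = q x * wt q B A := by
      unfold wt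
      rw [Finset.prod_insert hx, if_pos (Finset.mem_insert_self _ _)]
      congr 1
      refine Finset.prod_congr rfl (fun y hy => ?_)
      have : y ≠ x := fun h => hx (h ▸ hy)
      simp [Finset.mem_insert, this]
    rw [this]; ring
  · refine Finset.sum_congr rfl (fun A hA => ?_)
    have hxA : x ∉ A := fun h => hx (Finset.mem_powerset.1 hA h)
    have : wt q (insert x B) A = (1 - q x) * wt q B A := by
      unfold wt
      rw [Finset.prod_insert hx, if_neg hxA]
    rw [this]; ring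

theorem Ex_const (q : S d → ℝ) (B : Finset (S d)) (c : ℝ) : Ex q B (fun _ => c) = c := by
  induction B using Finset.induction_on with
  | empty => rw [Ex_empty]
  | insert x B hx ih => rw [Ex_insert q B x hx, ih]; ring

/-- Fubini. -/
theorem Ex_union (q : S d → ℝ) (D E : Finset (S d)) (h : Disjoint D E)
    (f : Finset (S d) → ℝ) :
    Ex q (D ∪ E) f = Ex q D (fun A => Ex q E (fun A' => f (A ∪ A'))) := by
  induction D using Finset.induction_on generalizing f with
  | empty => simp [Ex_empty]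
  | insert x D hx ih =>
    have hD : Disjoint D E := Finset.disjoint_of_subset_left (Finset.subset_insert _ _) h
    have hxE : x ∉ E := fun hE =>
      (Finset.disjoint_left.1 h) (Finset.mem_insert_self _ _) hE
    have hxu : x ∉ D ∪ E := by simp [hx, hxE]
    rw [Finset.insert_union, Ex_insert q (D ∪ E) x hxu, Ex_insert q D x hx, ih hD, ih hD]
    simp only [Finset.insert_union]

/-- Marginals. -/
theorem Ex_marg (q : S d → ℝ) (D B : Finset (S d)) (h : D ⊆ B) (f : Finset (S d) → ℝ)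
    (hf : ∀ A ⊆ B, f A = f (A ∩ D)) : Ex q B f = Ex q D f := by
  have e : B = D ∪ (B \ D) := by rw [Finset.union_sdiff_of_subset h]
  have hd : Disjoint D (B \ D) := Finset.disjoint_sdiff
  conv_lhs => rw [e]
  rw [Ex_union q D (B \ D) hd]
  refine Ex_congr q D _ _ (fun A hA => ?_)
  have : ∀ A' ⊆ B \ D, f (A ∪ A') = f A := by
    intro A' hA'
    rw [hf (A ∪ A') (Finset.union_subset (hA.trans h) (hA'.trans Finset.sdiff_subset))]
    congr 1
    ext y
    simp only [Finset.mem_inter, Finset.mem_union]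
    constructor
    · rintro ⟨h1 | h1, h2⟩
      · exact h1
      · exact absurd h2 (Finset.mem_sdiff.1 (hA' h1)).2
    · intro h1; exact ⟨Or.inl h1, hA h1⟩
  rw [Ex_congr q (B \ D) (fun A' => f (A ∪ A')) (fun _ => f A) this, Ex_const]

/-- Independence. -/
theorem Ex_indep (q : S d → ℝ) (D E B : Finset (S d)) (hD : D ⊆ B) (hE : E ⊆ B)
    (h : Disjoint D E) (f g : Finset (S d) → ℝ) (hf : ∀ A ⊆ B, f A = f (A ∩ D))
    (hg : ∀ A ⊆ B, g A = g (A ∩ E)) :
    Ex q B (fun A => f A * g A) = Ex q B f * Ex q B g := by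
  have hU : D ∪ E ⊆ B := Finset.union_subset hD hE
  rw [Ex_marg q D B hD f hf, Ex_marg q E B hE g hg]
  rw [Ex_marg q (D ∪ E) B hU (fun A => f A * g A)]
  · rw [Ex_union q D E h]
    have : ∀ A ⊆ D, Ex q E (fun A' => f (A ∪ A') * g (A ∪ A')) = f A * Ex q E g := by
      intro A hA
      rw [← Ex_mul_left]
      refine Ex_congr q E _ _ (fun A' hA' => ?_)
      have h1 : A ∪ A' ⊆ B := Finset.union_subset (hA.trans hD) (hA'.trans hE)
      rw [hf _ h1, hg _ h1]
      have e1 : (A ∪ A') ∩ D = A := by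
        ext y
        simp only [Finset.mem_inter, Finset.mem_union]
        constructor
        · rintro ⟨h1 | h1, h2⟩
          · exact h1
          · exact absurd (hA' h1) (fun h3 => (Finset.disjoint_left.1 h) h2 h3)
        · intro h1; exact ⟨Or.inl h1, hA h1⟩
      have e2 : (A ∪ A') ∩ E = A' := by
        ext y
        simp only [Finset.mem_inter, Finset.mem_union]
        constructor
        · rintro ⟨h1 | h1, h2⟩
          · exact absurd h2 (fun h3 => (Finset.disjoint_left.1 h) (hA h1) h3)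
          · exact h1
        · intro h1; exact ⟨Or.inr h1, hA' h1⟩
      rw [e1, e2]
    rw [Ex_congr q D _ _ this]
    have : ∀ A, f A * Ex q E g = Ex q E g * f A := fun A => mul_comm _ _
    simp only [this]
    rw [Ex_mul_left, mul_comm]
  · intro A hA
    have h1 : A ∩ (D ∪ E) ⊆ B := Finset.inter_subset_left.trans hA
    rw [hf A hA, hg A hA, hf _ h1, hg _ h1]
    congr 2
    · ext y; simp only [Finset.mem_inter, Finset.mem_union]; tauto
    · ext y; simp only [Finset.mem_inter, Finset.mem_union]; tauto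

/-- Change of variables under an injection. -/
theorem Ex_image (p : ℝ) (B : Finset (S d)) (e : S d → S d) (he : Function.Injective e)
    (f : Finset (S d) → ℝ) :
    Ex (fun _ => p) (B.image e) f = Ex (fun _ => p) B (fun A => f (A.image e)) := by
  induction B using Finset.induction_on generalizing f with
  | empty => simp [Ex_empty]
  | insert x B hx ih =>
    have hx' : e x ∉ B.image e := by
      intro h
      obtain ⟨y, hy, h2⟩ := Finset.mem_image.1 h
      exact hx (he h2 ▸ hy)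
    rw [Finset.image_insert, Ex_insert _ _ _ hx', Ex_insert _ _ _ hx, ih, ih]
    simp only [Finset.image_insert]

/-- Invariance under a permutation preserving `B`. -/
theorem Ex_perm (p : ℝ) (B : Finset (S d)) (π : Equiv.Perm (S d)) (h : B.image π = B)
    (f : Finset (S d) → ℝ) :
    Ex (fun _ => p) B (fun A => f (A.image π)) = Ex (fun _ => p) B f := by
  rw [← Ex_image p B π π.injective f, h]

theorem Pr_congr (q : S d → ℝ) (B : Finset (S d)) (E F : Finset (S d) → Prop)
    (h : ∀ A ⊆ B, (E A ↔ F A)) : Pr q B E = Pr q B F := by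
  unfold Pr
  refine Ex_congr _ _ _ _ (fun A hA => ?_)
  by_cases h1 : E A
  · rw [if_pos h1, if_pos ((h A hA).1 h1)]
  · rw [if_neg h1, if_neg (fun h2 => h1 ((h A hA).2 h2))]

theorem Pr_nonneg (q : S d → ℝ) (B : Finset (S d)) (E : Finset (S d) → Prop)
    (hq : ∀ x ∈ B, 0 ≤ q x ∧ q x ≤ 1) : 0 ≤ Pr q B E := by
  unfold Pr
  refine Ex_nonneg _ _ _ hq (fun A _ => ?_)
  split_ifs <;> norm_num

theorem Pr_mono (q : S d → ℝ) (B : Finset (S d)) (E F : Finset (S d) → Prop)
    (hq : ∀ x ∈ B, 0 ≤ q x ∧ q x ≤ 1) (h : ∀ A ⊆ B, E A → F A) : Pr q B E ≤ Pr q B F := by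
  unfold Pr
  refine Ex_mono _ _ _ _ hq (fun A hA => ?_)
  by_cases h1 : E A
  · rw [if_pos h1, if_pos (h A hA h1)]
  · rw [if_neg h1]; split_ifs <;> norm_num

theorem Pr_or (q : S d → ℝ) (B : Finset (S d)) (E F : Finset (S d) → Prop)
    (hq : ∀ x ∈ B, 0 ≤ q x ∧ q x ≤ 1) :
    Pr q B (fun A => E A ∨ F A) ≤ Pr q B E + Pr q B F := by
  unfold Pr
  rw [← Ex_add]
  refine Ex_mono _ _ _ _ hq (fun A hA => ?_)
  by_cases h1 : E A <;> by_cases h2 : F A <;> simp [h1, h2]

/-- Union bound. -/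
theorem Pr_exists {ι : Type*} (q : S d → ℝ) (B : Finset (S d)) (s : Finset ι)
    (E : ι → Finset (S d) → Prop) (hq : ∀ x ∈ B, 0 ≤ q x ∧ q x ≤ 1) :
    Pr q B (fun A => ∃ i ∈ s, E i A) ≤ ∑ i ∈ s, Pr q B (E i) := by
  classical
  induction s using Finset.induction_on with
  | empty =>
    simp only [Finset.notMem_empty, false_and, exists_false, Finset.sum_empty]
    unfold Pr; simp only [if_false]; rw [Ex_const]
  | insert i s hi ih =>
    rw [Finset.sum_insert hi]
    refine le_trans ?_ (add_le_add_right ih _)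
    refine le_trans ?_ (Pr_or q B (E i) (fun A => ∃ i ∈ s, E i A) hq)
    refine Pr_mono q B _ _ hq (fun A _ h => ?_)
    obtain ⟨j, hj, h⟩ := h
    rcases Finset.mem_insert.1 hj with rfl | hj
    · exact Or.inl h
    · exact Or.inr ⟨j, hj, h⟩

theorem Pr_le_one (q : S d → ℝ) (B : Finset (S d)) (E : Finset (S d) → Prop)
    (hq : ∀ x ∈ B, 0 ≤ q x ∧ q x ≤ 1) : Pr q B E ≤ 1 := by
  unfold Pr
  calc _ ≤ Ex q B (fun _ => 1) := Ex_mono _ _ _ _ hq (fun A _ => by split_ifs <;> norm_num)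
    _ = 1 := Ex_const _ _ _

theorem Pr_not (q : S d → ℝ) (B : Finset (S d)) (E : Finset (S d) → Prop) :
    Pr q B (fun A => ¬ E A) = 1 - Pr q B E := by
  have h1 : Ex q B (fun _ => (1:ℝ)) = 1 := Ex_const q B 1
  unfold Pr
  rw [eq_sub_iff_add_eq, ← Ex_add]
  refine Eq.trans ?_ h1
  refine Ex_congr _ _ _ _ (fun A _ => ?_)
  by_cases h : E A <;> simp [h]

/-- Markov's inequality. -/
theorem Pr_markov (q : S d → ℝ) (B : Finset (S d)) (f : Finset (S d) → ℝ) (c : ℝ)
    (hq : ∀ x ∈ B, 0 ≤ q x ∧ q x ≤ 1) (hf : ∀ A ⊆ B, 0 ≤ f A) (hc : 0 < c) :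
    Pr q B (fun A => c ≤ f A) ≤ Ex q B f / c := by
  rw [le_div_iff₀ hc, mul_comm]
  unfold Pr
  rw [← Ex_mul_left]
  refine Ex_mono _ _ _ _ hq (fun A hA => ?_)
  by_cases h : c ≤ f A
  · rw [if_pos h]; linarith
  · rw [if_neg h]; linarith [hf A hA]

/-- Marginals of events. -/
theorem Pr_marg (q : S d → ℝ) (D B : Finset (S d)) (h : D ⊆ B) (E : Finset (S d) → Prop)
    (hE : ∀ A ⊆ B, (E A ↔ E (A ∩ D))) : Pr q B E = Pr q D E := by
  unfold Pr
  refine Ex_marg q D B h _ (fun A hA => ?_)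
  by_cases h1 : E A
  · rw [if_pos h1, if_pos ((hE A hA).1 h1)]
  · rw [if_neg h1, if_neg (fun h2 => h1 ((hE A hA).2 h2))]

/-- Probability that `x` is closed. -/
theorem Pr_mem (q : S d → ℝ) (B : Finset (S d)) (x : S d) (hx : x ∈ B) :
    Pr q B (fun A => x ∈ A) = q x := by
  have hD : ({x} : Finset (S d)) ⊆ B := by simpa using hx
  rw [Pr_marg q {x} B hD (fun A => x ∈ A) (fun A _ => by simp)]
  have e : ({x} : Finset (S d)) = insert x ∅ := by simp
  unfold Pr
  rw [e, Ex_insert q ∅ x (by simp), Ex_empty, Ex_empty]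
  simp

end Pool.Agent.W845.TR
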